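import Pool.Agent.MP_cccb39_co.Fr.St

namespace FP

open Finset
open scoped Classical

theorem c1 (hL : L1S) : C1S := by
  intro V _ G col p q w s r t P S W T g h hPS hWT
  obtain ⟨c0, a0, a1, a2⟩ := g.third S s P
  obtain ⟨c1, b0, b1, b2⟩ := g.third P p S
  by_cases h0 : G.Adj c0 T
  swap
  · exact hL V G col p q w s r t P S W T c0 g h hPS ⟨a0, a1, a2⟩ h0
  by_cases h1 : G.Adj c1 W
  swap
  · exact hL V G col s r t p q w S P T W c1 g h.flip hPS.symm ⟨b0, b1, b2⟩ h1
  exfalso
  have n0 : t ≠ c0 := by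
    rintro rfl
    rcases h.nt g a0.symm with e | e | e
    exacts [h.S_r e, h.S_w e, h.S_T e]
  have n1 : w ≠ c1 := by
    rintro rfl
    rcases h.nw g b0.symm with e | e | e
    exacts [h.P_q e, h.P_t e, h.P_W e]
  have key : (W = c0 ∧ T = c1) ∨ (W ≠ c0 ∧ T ≠ c1) := by
    by_cases e0 : W = c0
    · refine Or.inl ⟨e0, ?_⟩
      subst e0
      rcases g.nb3 h.wW.symm hWT a0.symm h.T_w.symm h.S_w.symm h.S_T.symm h1.symm with e | e | e
      exacts [absurd e.symm n1, e.symm, absurd e b2]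
    · refine Or.inr ⟨e0, ?_⟩
      rintro rfl
      rcases g.nb3 h.tT.symm hWT.symm b0.symm h.W_t.symm h.P_t.symm h.P_W.symm h0.symm with
        e | e | e
      exacts [n0 e.symm, e0 e.symm, a2 e]
  obtain ⟨d0, x0, x1, x2⟩ := g.third c0 S T
  obtain ⟨d1, y0, y1, y2⟩ := g.third c1 P W
  refine g.cut3 [p, q, w, s, r, t, P, S, W, T, c0, c1].toFinset
    (two_le (a := p) (b := w) (by simp) (by simp) h.p_w) (g.small _ (by simp)) c0 d0 c1 d1 c0 d0 ?_
  intro u hu v hv huv
  simp only [List.toFinset_cons, List.toFinset_nil, insert_empty_eq, mem_insert, mem_singleton,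
    not_or] at hu hv
  obtain ⟨v1, v2, v3, v4, v5, v6, v7, v8, v9, v10, v11, v12⟩ := hv
  have A0 : G.Adj c0 v → v = d0 := fun k =>
    ((g.nb3 a0.symm h0 x0 h.S_T x1.symm x2.symm k).resolve_left v8).resolve_left v10
  have A1 : G.Adj c1 v → v = d1 := fun k =>
    ((g.nb3 b0.symm h1 y0 h.P_W y1.symm y2.symm k).resolve_left v7).resolve_left v9
  rcases hu with e | e | e | e | e | e | e | e | e | e | e | e <;> rw [e] at huv
  · exact absurd (((h.np g huv).resolve_left v2).resolve_left v4) v7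
  · exact absurd (((h.nq g huv).resolve_left v1).resolve_left v3) v5
  · exact absurd (((h.nw g huv).resolve_left v2).resolve_left v6) v9
  · exact absurd (((h.ns g huv).resolve_left v5).resolve_left v1) v8
  · exact absurd (((h.nr g huv).resolve_left v4).resolve_left v6) v2
  · exact absurd (((h.nt g huv).resolve_left v5).resolve_left v3) v10
  · exact absurd (((g.nb3 h.pP.symm hPS b0 h.S_p.symm b1.symm b2.symm huv).resolve_left
      v1).resolve_left v8) v12
  · exact absurd (((g.nb3 h.sS.symm hPS.symm a0 h.P_s.symm a1.symm a2.symm huv).resolve_left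
      v4).resolve_left v7) v11
  · rcases key with ⟨k, -⟩ | ⟨-, k⟩
    · exact Or.inl ⟨e.trans k, A0 (k ▸ huv)⟩
    · exact absurd (((g.nb3 h.wW.symm hWT h1.symm h.T_w.symm n1 k huv).resolve_left
        v3).resolve_left v10) v12
  · rcases key with ⟨-, k⟩ | ⟨k, -⟩
    · exact Or.inr (Or.inl ⟨e.trans k, A1 (k ▸ huv)⟩)
    · exact absurd (((g.nb3 h.tT.symm hWT.symm h0.symm h.W_t.symm n0 k huv).resolve_left
        v6).resolve_left v9) v11
  · exact Or.inl ⟨e, A0 huv⟩
  · exact Or.inr (Or.inl ⟨e, A1 huv⟩)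

end FP
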