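import Pool.Agent.MP_cccb39_co.Fr.St

namespace FP

open Finset
open scoped Classical

theorem c10 (h1 : C9S) (h2 : C10gS) (h3 : C10rS) : C10S := by
  intro V _ G col g nd nb
  obtain ⟨x, c1, c2, c3, y, d1, d2, d3, p, t, h⟩ :
      ∃ x c1 c2 c3 y d1 d2 d3 p t, CB G x c1 c2 c3 y d1 d2 d3 p t := by
    by_contra c
    exact nb fun x c1 c2 c3 y d1 d2 d3 p t h => c ⟨x, c1, c2, c3, y, d1, d2, d3, p, t, h⟩
  obtain ⟨a1, t1⟩ : ∃ o, Th G c1 x c2 o := g.third c1 x c2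
  obtain ⟨a3, t3⟩ : ∃ o, Th G c3 x c2 o := g.third c3 x c2
  obtain ⟨b1, s1⟩ : ∃ o, Th G d1 y d2 o := g.third d1 y d2
  obtain ⟨b3, s3⟩ : ∃ o, Th G d3 y d2 o := g.third d3 y d2
  by_cases e11 : a1 = b1
  · exact h1 V G col _ _ _ _ _ _ _ _ p t a1 g nd h t1.1.symm (e11 ▸ s1.1.symm)
  by_cases e31 : a3 = b1
  · exact h1 V G col _ _ _ _ _ _ _ _ p t a3 g nd h.rev1 t3.1.symm (e31 ▸ s1.1.symm)
  by_cases e13 : a1 = b3
  · exact h1 V G col _ _ _ _ _ _ _ _ p t a1 g nd h.rev2 t1.1.symm (e13 ▸ s3.1.symm)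
  by_cases e33 : a3 = b3
  · exact h1 V G col _ _ _ _ _ _ _ _ p t a3 g nd h.rev1.rev2 t3.1.symm (e33 ▸ s3.1.symm)
  obtain ⟨na, nb', R, a, b, sp⟩ := h3 V G col _ _ _ _ _ _ _ _ p t a1 a3 b1 b3 g h t1 t3 s1 s3
  have o : ∀ z ∈ R, z ≠ x ∧ z ≠ c1 ∧ z ≠ c2 ∧ z ≠ c3 ∧ z ≠ y ∧ z ≠ d1 ∧ z ≠ d2 ∧ z ≠ d3 ∧
      z ≠ p ∧ z ≠ t := fun z hz => by
    simpa only [mem_insert, mem_singleton, not_or] using mem_compl.1 (sp.sub hz)
  have m1 : a1 ∈ ({a1, a3} : Finset V) := by simp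
  have m3 : a3 ∈ ({a1, a3} : Finset V) := by simp
  have n1 : b1 ∈ ({b1, b3} : Finset V) := by simp
  have n3 : b3 ∈ ({b1, b3} : Finset V) := by simp
  have ha := sp.ma
  have hb := sp.mb
  simp only [mem_insert, mem_singleton] at ha hb
  rcases ha with rfl | rfl <;> rcases hb with rfl | rfl
  · exact h2 V G col _ _ _ _ _ _ _ _ p t _ _ _ _ R g nd h t1 t3 s1 s3 e33 sp.ps
      (fun z hz => by simp [o z hz]) (fun c => na (sp.ua _ c m3).symm)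
      fun c => nb' (sp.ub _ c n3).symm
  · exact h2 V G col _ _ _ _ _ _ _ _ p t _ _ _ _ R g nd h.rev2 t1 t3 s3 s1 e31 sp.ps
      (fun z hz => by simp [o z hz]) (fun c => na (sp.ua _ c m3).symm)
      fun c => nb' (sp.ub _ c n1)
  · exact h2 V G col _ _ _ _ _ _ _ _ p t _ _ _ _ R g nd h.rev1 t3 t1 s1 s3 e13 sp.ps
      (fun z hz => by simp [o z hz]) (fun c => na (sp.ua _ c m1))
      fun c => nb' (sp.ub _ c n3).symm
  · exact h2 V G col _ _ _ _ _ _ _ _ p t _ _ _ _ R g nd h.rev1.rev2 t3 t1 s3 s1 e11 sp.ps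
      (fun z hz => by simp [o z hz]) (fun c => na (sp.ua _ c m1))
      fun c => nb' (sp.ub _ c n1)

end FP
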