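import Pool.Agent.MP_cccb39_co.Fr.St

set_option linter.unusedSectionVars false

namespace FP

open Finset
open scoped Classical

section
variable {V : Type} [Fintype V] {G : SimpleGraph V} {col : V → Bool}
  {x c1 c2 c3 y d1 d2 d3 p t : V}

theorem c10r_swap (h : CB G x c1 c2 c3 y d1 d2 d3 p t) : CB G y d1 d2 d3 x c1 c2 c3 p t :=
  ⟨h.two.swap, h.py, h.px, h.td, h.tc, fun e => h.np (by simp at e ⊢; tauto),
    fun e => h.nt (by simp at e ⊢; tauto)⟩

theorem c10r_nx (g : Gr G col) (h : CB G x c1 c2 c3 y d1 d2 d3 p t) {w : V} (hw : G.Adj x w) :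
    w = c1 ∨ w = c3 ∨ w = p :=
  g.nb3 h.two.s1.ab h.two.s1.da.symm h.px.symm h.two.s1.bd
    (fun e => h.np (by simp [← e])) (fun e => h.np (by simp [← e])) hw

theorem c10r_nc (g : Gr G col) (h : CB G x c1 c2 c3 y d1 d2 d3 p t) {w : V} (hw : G.Adj c2 w) :
    w = c1 ∨ w = c3 ∨ w = t :=
  g.nb3 h.two.s1.bc.symm h.two.s1.cd h.tc.symm h.two.s1.bd
    (fun e => h.nt (by simp [← e])) (fun e => h.nt (by simp [← e])) hw

theorem c10r_n1 (g : Gr G col) (h : CB G x c1 c2 c3 y d1 d2 d3 p t) {a w : V}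
    (ha : Th G c1 x c2 a) (hw : G.Adj c1 w) : w = x ∨ w = c2 ∨ w = a :=
  g.nb3 h.two.s1.ab.symm h.two.s1.bc ha.1 h.two.s1.ac ha.2.1.symm ha.2.2.symm hw

theorem c10r_ne (g : Gr G col) (h : CB G x c1 c2 c3 y d1 d2 d3 p t) {a1 a3 : V}
    (h1 : Th G c1 x c2 a1) (h3 : Th G c3 x c2 a3) : a1 ≠ a3 := by
  rintro rfl
  exact g.k23 h.two.s1.bd h.two.s1.ab.symm h.two.s1.bc h1.1 h.two.s1.da h.two.s1.cd.symm h3.1
    h.two.s1.ac h1.2.1.symm h1.2.2.symm

theorem c10r_out (g : Gr G col) (h : CB G x c1 c2 c3 y d1 d2 d3 p t) {a : V}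
    (ha : Th G c1 x c2 a) : a ≠ x ∧ a ≠ c1 ∧ a ≠ c2 ∧ a ≠ c3 ∧ a ≠ y ∧ a ≠ d1 ∧ a ≠ d2 ∧ a ≠ d3 ∧
      a ≠ p ∧ a ≠ t := by
  have k : col x = col a := g.same h.two.s1.ab ha.1
  have k2 : col x = col c2 := g.same h.two.s1.ab h.two.s1.bc
  have ky : col x = col y := g.same h.px.symm h.py
  have n1 : c1 ≠ d1 := h.two.dis _ (by simp) _ (by simp)
  have n3 : c1 ≠ d3 := h.two.dis _ (by simp) _ (by simp)
  have np : c1 ≠ p := fun e => h.np (by simp [← e])
  have nt : c1 ≠ t := fun e => h.nt (by simp [← e])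
  refine ⟨ha.2.1, ha.1.ne', ha.2.2, ?_, ?_, ?_, ?_, ?_, ?_, ?_⟩ <;> rintro rfl
  · exact g.bip _ _ h.two.s1.da.symm k
  · rcases c10r_nx g (c10r_swap h) ha.1.symm with e | e | e
    exacts [n1 e, n3 e, np e]
  · exact g.bip _ _ h.two.s2.ab (ky.symm.trans k)
  · rcases c10r_nc g (c10r_swap h) ha.1.symm with e | e | e
    exacts [n1 e, n3 e, nt e]
  · exact g.bip _ _ h.two.s2.da.symm (ky.symm.trans k)
  · exact g.bip _ _ h.px.symm k
  · exact g.bip _ _ h.tc.symm (k2.symm.trans k)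

end

theorem c10r (h1 : SpS) : C10rS := by
  intro V _ G col x c1 c2 c3 y d1 d2 d3 p t a1 a3 b1 b3 g h ta1 ta3 tb1 tb3
  have s := c10r_swap h
  have na : a1 ≠ a3 := c10r_ne g h ta1 ta3
  have nb : b1 ≠ b3 := c10r_ne g s tb1 tb3
  refine ⟨na, nb, h1 V G _ _ _ ?_ ?_ fun Y hA hW hC => ?_⟩
  · have o1 := c10r_out g h ta1
    have o3 := c10r_out g h.rev1 ta3
    intro u hu
    simp only [mem_insert, mem_singleton, mem_compl, not_or] at hu ⊢
    rcases hu with rfl | rfl <;> tauto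
  · have o1 := c10r_out g s tb1
    have o3 := c10r_out g s.rev1 tb3
    intro u hu
    simp only [mem_insert, mem_singleton, mem_compl, not_or] at hu ⊢
    rcases hu with rfl | rfl <;> tauto
  by_contra hn
  have m1 : a1 ∈ Y := hA (by simp)
  have m3 : a3 ∈ Y := hA (by simp)
  have q1 : b1 ∉ Y := fun e => hn ⟨b1, by simp, e⟩
  have q3 : b3 ∉ Y := fun e => hn ⟨b3, by simp, e⟩
  obtain ⟨p', hp, hp1, hp2⟩ := g.third p x y
  obtain ⟨t', ht, ht1, ht2⟩ := g.third t c2 d2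
  have xy : x ≠ y := h.two.dis _ (by simp) _ (by simp)
  have cd : c2 ≠ d2 := h.two.dis _ (by simp) _ (by simp)
  have np : ∀ {w}, G.Adj p w → w = x ∨ w = y ∨ w = p' := fun hw =>
    g.nb3 h.px h.py hp xy hp1.symm hp2.symm hw
  have nt : ∀ {w}, G.Adj t w → w = c2 ∨ w = d2 ∨ w = t' := fun hw =>
    g.nb3 h.tc h.td ht cd ht1.symm ht2.symm hw
  have oW : ∀ u ∈ Y, u ≠ x ∧ u ≠ c1 ∧ u ≠ c2 ∧ u ≠ c3 ∧ u ≠ y ∧ u ≠ d1 ∧ u ≠ d2 ∧ u ≠ d3 ∧
      u ≠ p ∧ u ≠ t := fun u hu => by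
    have := hW hu
    simpa only [mem_insert, mem_singleton, mem_compl, not_or] using this
  have ed : ∀ u ∈ Y, ∀ v, v ∉ Y → G.Adj u v →
      (u = a1 ∧ v = c1) ∨ (u = a3 ∧ v = c3) ∨ (u = p' ∧ v = p) ∨ (u = t' ∧ v = t) := by
    intro u hu v hv huv
    obtain ⟨u1, u2, u3, u4, u5, u6, u7, u8, u9, u10⟩ := oW u hu
    have hv' : v ∈ ({x, c1, c2, c3, y, d1, d2, d3, p, t} : Finset V) := by
      by_contra e
      exact hv (hC u hu v (mem_compl.2 e) huv)
    simp only [mem_insert, mem_singleton] at hv'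
    rcases hv' with e | e | e | e | e | e | e | e | e | e <;> rw [e] at huv
    · exact ((c10r_nx g h huv.symm).elim u2 fun k => k.elim u4 u9).elim
    · exact Or.inl ⟨((c10r_n1 g h ta1 huv.symm).resolve_left u1).resolve_left u3, e⟩
    · exact ((c10r_nc g h huv.symm).elim u2 fun k => k.elim u4 u10).elim
    · exact Or.inr (Or.inl
        ⟨((c10r_n1 g h.rev1 ta3 huv.symm).resolve_left u1).resolve_left u3, e⟩)
    · exact ((c10r_nx g s huv.symm).elim u6 fun k => k.elim u8 u9).elim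
    · exact (q1 ((((c10r_n1 g s tb1 huv.symm).resolve_left u5).resolve_left u7) ▸ hu)).elim
    · exact ((c10r_nc g s huv.symm).elim u6 fun k => k.elim u8 u10).elim
    · exact (q3 ((((c10r_n1 g s.rev1 tb3 huv.symm).resolve_left u5).resolve_left u7) ▸ hu)).elim
    · exact Or.inr (Or.inr (Or.inl ⟨((np huv.symm).resolve_left u1).resolve_left u5, e⟩))
    · exact Or.inr (Or.inr (Or.inr ⟨((nt huv.symm).resolve_left u3).resolve_left u7, e⟩))
  by_cases mp : p' ∈ Y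
  swap
  · refine g.cut3 Y (two_le m1 m3 na) (two_le_compl q1 q3 nb) a1 c1 a3 c3 t' t
      fun u hu v hv huv => ?_
    rcases ed u hu v hv huv with e | e | e | e
    exacts [Or.inl e, Or.inr (Or.inl e), (mp (e.1 ▸ hu)).elim, Or.inr (Or.inr e)]
  by_cases mt : t' ∈ Y
  swap
  · refine g.cut3 Y (two_le m1 m3 na) (two_le_compl q1 q3 nb) a1 c1 a3 c3 p' p
      fun u hu v hv huv => ?_
    rcases ed u hu v hv huv with e | e | e | e
    exacts [Or.inl e, Or.inr (Or.inl e), Or.inr (Or.inr e), (mt (e.1 ▸ hu)).elim]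
  have oX : ∀ w ∈ ({y, d1, d2, d3} : Finset V), w ∉ Y →
      w ∉ Y ∪ ({x, c1, c2, c3, p, t} : Finset V) := by
    intro w hw hY e
    simp only [mem_union, mem_insert, mem_singleton] at e
    rcases e with e | e | e | e | e | e | e
    · exact hY e
    · exact h.two.dis x (by simp) w hw e.symm
    · exact h.two.dis c1 (by simp) w hw e.symm
    · exact h.two.dis c2 (by simp) w hw e.symm
    · exact h.two.dis c3 (by simp) w hw e.symm
    · exact h.np (by rw [← e]; simp at hw ⊢; tauto)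
    · exact h.nt (by rw [← e]; simp at hw ⊢; tauto)
  refine g.cut3 (Y ∪ {x, c1, c2, c3, p, t})
    (two_le (mem_union_left _ m1) (mem_union_left _ m3) na)
    (two_le_compl (oX y (by simp) fun e => (oW y e).2.2.2.2.1 rfl)
      (oX d2 (by simp) fun e => (oW d2 e).2.2.2.2.2.2.1 rfl) h.two.s2.ac) p y t d2 t d2
    fun u hu v hv huv => ?_
  simp only [mem_union, mem_insert, mem_singleton, not_or] at hu hv
  obtain ⟨v0, v1, v2, v3, v4, v5, v6⟩ := hv
  rcases hu with e | e | e | e | e | e | e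
  · rcases ed u e v v0 huv with k | k | k | k
    exacts [(v2 k.2).elim, (v4 k.2).elim, (v5 k.2).elim, (v6 k.2).elim]
  all_goals rw [e] at huv
  · exact ((c10r_nx g h huv).elim v2 fun k => k.elim v4 v5).elim
  · exact ((c10r_n1 g h ta1 huv).elim v1 fun k => k.elim v3 fun k => v0 (k ▸ m1)).elim
  · exact ((c10r_nc g h huv).elim v2 fun k => k.elim v4 v6).elim
  · exact ((c10r_n1 g h.rev1 ta3 huv).elim v1 fun k => k.elim v3 fun k => v0 (k ▸ m3)).elim
  · exact Or.inl ⟨e, ((np huv).resolve_left v1).resolve_right fun k => v0 (k ▸ mp)⟩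
  · exact Or.inr (Or.inl ⟨e, ((nt huv).resolve_left v3).resolve_right fun k => v0 (k ▸ mt)⟩)

end FP
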