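import Pool.Agent.MP_cccb39_co.Fr.St

/-! A domino with a path from `P` to `T` and `S` not adjacent to `W`. -/

namespace FP

open Finset
open scoped Classical

theorem c3_ne {V : Type} {col : V → Bool} {b : Bool} {x y : V} (hx : col x = b)
    (hy : col y = !b) : x ≠ y := by
  intro e
  rw [e, hy] at hx
  revert hx
  cases b <;> simp

theorem c3 : C3S := by
  intro V _ G col p q w s r t P S W T R g h hSW hP hR hW hS
  obtain ⟨cw, cr, cS, -, cq, cs, ct, -, cW⟩ := h.cols g
  have np : p ∉ R := fun e => hR p e (by simp)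
  have nq : q ∉ R := fun e => hR q e (by simp)
  have nw : w ∉ R := fun e => hR w e (by simp)
  have ns : s ∉ R := fun e => hR s e (by simp)
  have nr : r ∉ R := fun e => hR r e (by simp)
  have nt : t ∉ R := fun e => hR t e (by simp)
  have p_t : p ≠ t := c3_ne rfl ct
  have w_s : w ≠ s := c3_ne cw cs
  have p_W : p ≠ W := c3_ne rfl cW
  have S_t : S ≠ t := c3_ne cS ct
  have r_W : r ≠ W := c3_ne cr cW
  have S_q : S ≠ q := c3_ne cS cq
  have S_W : S ≠ W := c3_ne cS cW
  have h1 : PS G (insert p R) p T := by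
    refine hP.ext p np h.pP fun x hx ha => ?_
    rcases h.np g ha with e | e | e
    · exact absurd (e ▸ hx) nq
    · exact absurd (e ▸ hx) ns
    · exact e
  have r1 : r ∉ insert p R := by
    simp only [mem_insert, not_or]; exact ⟨h.p_r.symm, nr⟩
  have S1 : S ∉ insert p R := by
    simp only [mem_insert, not_or]; exact ⟨h.S_p, hS⟩
  have h2 : PS G (insert s (insert p R)) s T := by
    refine h1.ext s ?_ h.ps.symm fun x hx ha => ?_
    · simp only [mem_insert, not_or]; exact ⟨h.ps.ne.symm, ns⟩
    · rcases h.ns g ha with e | e | e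
      · exact absurd (e ▸ hx) r1
      · exact e
      · exact absurd (e ▸ hx) S1
  have r2 : r ∉ insert s (insert p R) := by
    simp only [mem_insert, not_or]; exact ⟨h.sr.ne.symm, h.p_r.symm, nr⟩
  have w2 : w ∉ insert s (insert p R) := by
    simp only [mem_insert, not_or]; exact ⟨w_s, h.p_w.symm, nw⟩
  have h3 : PS G (insert t (insert s (insert p R))) t s := by
    refine h2.swap.ext t ?_ h.tT fun x hx ha => ?_
    · simp only [mem_insert, not_or]; exact ⟨h.s_t.symm, p_t.symm, nt⟩
    · rcases h.nt g ha with e | e | e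
      · exact absurd (e ▸ hx) r2
      · exact absurd (e ▸ hx) w2
      · exact e
  have q3 : q ∉ insert t (insert s (insert p R)) := by
    simp only [mem_insert, not_or]; exact ⟨h.q_t, h.q_s, h.pq.ne.symm, nq⟩
  have W3 : W ∉ insert t (insert s (insert p R)) := by
    simp only [mem_insert, not_or]; exact ⟨h.W_t, h.W_s, p_W.symm, hW⟩
  have h4 : PS G (insert w (insert t (insert s (insert p R)))) w s := by
    refine h3.ext w ?_ h.wt fun x hx ha => ?_
    · simp only [mem_insert, not_or]; exact ⟨h.wt.ne, w_s, h.p_w.symm, nw⟩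
    · rcases h.nw g ha with e | e | e
      · exact absurd (e ▸ hx) q3
      · exact e
      · exact absurd (e ▸ hx) W3
  have mp : p ∈ insert w (insert t (insert s (insert p R))) := by simp
  have mw : w ∈ insert w (insert t (insert s (insert p R))) := by simp
  have ms : s ∈ insert w (insert t (insert s (insert p R))) := by simp
  have mt : t ∈ insert w (insert t (insert s (insert p R))) := by simp
  have r4 : r ∉ insert w (insert t (insert s (insert p R))) := by
    simp only [mem_insert, not_or]
    exact ⟨h.w_r.symm, h.rt.ne, h.sr.ne.symm, h.p_r.symm, nr⟩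
  have S4 : S ∉ insert w (insert t (insert s (insert p R))) := by
    simp only [mem_insert, not_or]; exact ⟨h.S_w, S_t, h.sS.ne.symm, h.S_p, hS⟩
  have q4 : q ∉ insert w (insert t (insert s (insert p R))) := by
    simp only [mem_insert, not_or]; exact ⟨h.qw.ne, h.q_t, h.q_s, h.pq.ne.symm, nq⟩
  have W4 : W ∉ insert w (insert t (insert s (insert p R))) := by
    simp only [mem_insert, not_or]; exact ⟨h.wW.ne.symm, h.W_t, h.W_s, p_W.symm, hW⟩
  have qS : ¬ G.Adj q S := fun a => by
    rcases h.nq g a with e | e | e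
    · exact h.S_p e
    · exact h.S_w e
    · exact h.S_r e
  have rW : ¬ G.Adj r W := fun a => by
    rcases h.nr g a with e | e | e
    · exact h.W_s e
    · exact h.W_t e
    · exact h.W_q e
  generalize insert w (insert t (insert s (insert p R))) = Q at h4 mp mw ms mt r4 S4 q4 W4
  refine ⟨Q, s, w, r, S, q, W, h4.swap, w_s.symm, r4, S4, q4, W4, h.S_r.symm, h.qr.ne.symm, r_W,
    S_q, S_W, h.W_q.symm, h.sr, h.sS, h.qw.symm, h.wW, ⟨t, mt, h.s_t.symm, h.rt⟩,
    ⟨p, mp, h.p_w, h.pq.symm⟩, ?_, ?_, fun e => hSW e.2, fun e => rW e.1, ?_⟩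
  · intro x hx ha hb
    rcases h.nr g ha with e | e | e
    · exact hx (e ▸ ms)
    · exact hx (e ▸ mt)
    · exact qS (e ▸ hb.symm)
  · intro x hx ha hb
    rcases h.nq g ha with e | e | e
    · exact hx (e ▸ mp)
    · exact hx (e ▸ mw)
    · exact rW (e ▸ hb.symm)
  · intro Y hY
    have hd : ∀ x ∈ Y, x ∉ Q := fun x hx => disjoint_left.1 hY.dis hx
    refine g.cut3 ((Y.erase q).erase r)
      (two_le (a := S) (b := W) (mem_erase.2 ⟨h.S_r, mem_erase.2 ⟨S_q, hY.ma'⟩⟩)
        (mem_erase.2 ⟨r_W.symm, mem_erase.2 ⟨h.W_q, hY.ms'⟩⟩) S_W)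
      (two_le_compl (a := q) (b := r) (by simp) (by simp) h.qr.ne) S s W w S s ?_
    intro x hx y hy ha
    obtain ⟨xr, hx⟩ := mem_erase.1 hx
    obtain ⟨xq, hx⟩ := mem_erase.1 hx
    rcases hY.clo x hx y ha with hyY | ⟨hyQ, e | e | e | e⟩
    · exfalso
      by_cases e1 : y = r
      · rw [e1] at ha
        rcases h.nr g ha.symm with e | e | e
        · exact hd x hx (e ▸ ms)
        · exact hd x hx (e ▸ mt)
        · exact xq e
      · by_cases e2 : y = q
        · rw [e2] at ha
          rcases h.nq g ha.symm with e | e | e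
          · exact hd x hx (e ▸ mp)
          · exact hd x hx (e ▸ mw)
          · exact xr e
        · exact hy (mem_erase.2 ⟨e1, mem_erase.2 ⟨e2, hyY⟩⟩)
    · exact absurd e xr
    · exact Or.inl ⟨e, hY.ta y hyQ (e ▸ ha)⟩
    · exact absurd e xq
    · exact Or.inr (Or.inl ⟨e, hY.ts y hyQ (e ▸ ha)⟩)

end FP
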