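import Pool.Agent.MP_cccb39_co.Fr.St

namespace FP

open Finset
open scoped Classical

theorem c4 (hD : D1S) : C4S := by
  intro V _ G col p q w s r t P S W T g h hPT hSW nPS nWT
  obtain ⟨S', a1, a2, a3⟩ := g.third S s W
  obtain ⟨T', b1, b2, b3⟩ := g.third T t P
  obtain ⟨P', c1, c2, c3⟩ := g.third P p T
  obtain ⟨W', d1, d2, d3⟩ := g.third W w S
  by_cases e1 : S' = T'
  swap
  · exact hD V G col p q w s r t P S W T S' T' g h hPT hSW nPS nWT ⟨a1, a2, a3⟩ ⟨b1, b2, b3⟩ e1
  by_cases e2 : P' = W'
  swap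
  · exact hD V G col s r t p q w S P T W P' W' g h.flip hSW hPT (fun e => nPS e.symm)
      (fun e => nWT e.symm) ⟨c1, c2, c3⟩ ⟨d1, d2, d3⟩ e2
  subst e1 e2
  obtain ⟨u, u1, u2, u3⟩ := g.third S' S T
  obtain ⟨z, z1, z2, z3⟩ := g.third P' P W
  exfalso
  refine g.cut3 [p, q, w, s, r, t, P, S, W, T, S', P'].toFinset
    (two_le (a := p) (b := w) (by simp) (by simp) h.p_w) (g.small _ (by simp)) S' u P' z P' z ?_
  intro x hx v hv hxv
  simp only [List.toFinset_cons, List.toFinset_nil, insert_empty_eq, mem_insert, mem_singleton,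
    not_or] at hx hv
  obtain ⟨v1, v2, v3, v4, v5, v6, v7, v8, v9, v10, v11, v12⟩ := hv
  rcases hx with e | e | e | e | e | e | e | e | e | e | e | e <;> rw [e] at hxv
  · rcases h.np g hxv with f | f | f <;> contradiction
  · rcases h.nq g hxv with f | f | f <;> contradiction
  · rcases h.nw g hxv with f | f | f <;> contradiction
  · rcases h.ns g hxv with f | f | f <;> contradiction
  · rcases h.nr g hxv with f | f | f <;> contradiction
  · rcases h.nt g hxv with f | f | f <;> contradiction
  · rcases g.nb3 h.pP.symm hPT c1 h.T_p.symm c2.symm c3.symm hxv with f | f | f <;> contradiction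
  · rcases g.nb3 h.sS.symm hSW a1 h.W_s.symm a2.symm a3.symm hxv with f | f | f <;> contradiction
  · rcases g.nb3 h.wW.symm hSW.symm d1 h.S_w.symm d2.symm d3.symm hxv with f | f | f <;>
      contradiction
  · rcases g.nb3 h.tT.symm hPT.symm b1 h.P_t.symm b2.symm b3.symm hxv with f | f | f <;>
      contradiction
  · rcases g.nb3 a1.symm b1.symm u1 h.S_T u2.symm u3.symm hxv with f | f | f
    · contradiction
    · contradiction
    · exact Or.inl ⟨e, f⟩
  · rcases g.nb3 c1.symm d1.symm z1 h.P_W z2.symm z3.symm hxv with f | f | f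
    · contradiction
    · contradiction
    · exact Or.inr (Or.inl ⟨e, f⟩)

end FP
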