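import Pool.Agent.MP_cccb39_co.Fr.St

namespace FP

open Finset
open scoped Classical

theorem c5_ne {V : Type} {col : V → Bool} {a c : V} {b : Bool} (h1 : col a = b)
    (h2 : col c = !b) : a ≠ c := by
  rintro rfl
  cases b <;> simp [h1] at h2

theorem c5_edge (h1 : C1S) (h2 : C2S) {V : Type} [Fintype V] {G : SimpleGraph V} {col : V → Bool}
    {p q w s r t P S W T : V} (g : Gr G col) (h : Dom G p q w s r t P S W T) (e : G.Adj P S) :
    HasGC G := by
  by_cases f : G.Adj W T
  · exact h1 V G col p q w s r t P S W T g h e f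
  obtain ⟨cw, cr, cS, -, cq, -, ct, cP, cW⟩ := h.cols g
  refine h2 V G col p q w s r t P S W T (insert P {S}) g h f
    ((PS.one G S).ext P (by simpa using e.ne) e fun x hx _ => mem_singleton.1 hx) ?_ ?_ ?_
  · intro z hz
    simp only [mem_insert, mem_singleton, not_or] at hz ⊢
    rcases hz with rfl | rfl
    · exact ⟨h.pP.ne', h.P_q, (c5_ne cw cP).symm, h.P_s, (c5_ne cr cP).symm, h.P_t⟩
    · exact ⟨h.S_p, c5_ne cS cq, h.S_w, h.sS.ne', h.S_r, c5_ne cS ct⟩
  · simp only [mem_insert, mem_singleton, not_or]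
    exact ⟨h.P_W.symm, (c5_ne cS cW).symm⟩
  · intro x hx y hy a b
    simp only [mem_insert, mem_singleton] at hx hy
    exact (hx.resolve_left a.ne').trans (hy.resolve_left b.ne').symm

theorem c5 (h1 : C1S) (h2 : C2S) (h3 : C3S) (h4 : C4S) (h5 : DspS) : C5S := by
  intro V _ G col p q w s r t P S W T g h
  by_cases e1 : G.Adj P S
  · exact c5_edge h1 h2 g h e1
  by_cases e2 : G.Adj W T
  · exact c5_edge h1 h2 g h.refl e2
  by_cases e3 : G.Adj P T ∧ G.Adj S W
  · exact h4 V G col p q w s r t P S W T g h e3.1 e3.2 e1 e2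
  obtain ⟨R, a, b, sp⟩ := h5 V G col p q w s r t P S W T g h
  obtain ⟨-, -, cS, cT, -, -, -, cP, cW⟩ := h.cols g
  have o1 : ∀ z ∈ R, z ∉ ({p, q, w, s, r, t} : Finset V) := fun z hz => mem_compl.1 (sp.sub hz)
  have o2 : ∀ z ∈ R, z ∉ ({w, q, p, t, r, s} : Finset V) := fun z hz c => o1 z hz (by
    simp only [mem_insert, mem_singleton] at c ⊢
    tauto)
  have mP : P ∈ ({P, W} : Finset V) := by simp
  have mW : W ∈ ({P, W} : Finset V) := by simp
  have mS : S ∈ ({S, T} : Finset V) := by simp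
  have mT : T ∈ ({S, T} : Finset V) := by simp
  have ha := sp.ma
  have hb := sp.mb
  simp only [mem_insert, mem_singleton] at ha hb
  rcases ha with rfl | rfl <;> rcases hb with rfl | rfl
  · exact h2 V G col p q w s r t _ _ W T R g h e2 sp.ps o1
      (fun c => h.P_W (sp.ua W c mW).symm) sp.oa
  · refine h3 V G col p q w s r t _ S W _ R g h (fun c => ?_) sp.ps o1
      (fun c => h.P_W (sp.ua W c mW).symm) fun c => h.S_T (sp.ub S c mS)
    exact e3 ⟨(sp.k1 W mW S mS c.symm).resolve_left (c5_ne cT cP).symm, c⟩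
  · refine h3 V G col w q p t r s _ T P _ R g h.refl (fun c => ?_) sp.ps o2
      (fun c => h.P_W (sp.ua P c mP)) fun c => h.S_T (sp.ub T c mT).symm
    exact e3 ⟨c.symm, ((sp.k1 P mP T mT c.symm).resolve_left (c5_ne cS cW).symm).symm⟩
  · exact h2 V G col w q p t r s _ _ P S R g h.refl e1 sp.ps o2
      (fun c => h.P_W (sp.ua P c mP)) sp.oa

end FP
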