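import Pool.Agent.MP_cccb39_co.Fr.St

namespace FP

open Finset
open scoped Classical

section
variable {V : Type} [Fintype V] {G : SimpleGraph V} {col : V → Bool}
  {x c1 c2 c3 y d1 d2 d3 : V}

theorem c8_out (g : Gr G col) (hn : NoDom G) (h : Two G x c1 c2 c3 y d1 d2 d3)
    (xy : G.Adj x y) (cd : G.Adj c2 d2) {a : V} (ha : Th G c1 x c2 a) :
    a ≠ x ∧ a ≠ c1 ∧ a ≠ c2 ∧ a ≠ c3 ∧ a ≠ y ∧ a ≠ d1 ∧ a ≠ d2 ∧ a ≠ d3 := by
  obtain ⟨⟨e1, e2, e3, e4, n1, n2⟩, ⟨f1, f2, f3, f4, m1, m2⟩, dis⟩ := h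
  obtain ⟨a1, a2, a3⟩ := ha
  have xd1 : x ≠ d1 := dis _ (by simp) _ (by simp)
  have xd3 : x ≠ d3 := dis _ (by simp) _ (by simp)
  have c1y : c1 ≠ y := dis _ (by simp) _ (by simp)
  have c1d1 : c1 ≠ d1 := dis _ (by simp) _ (by simp)
  have c1d3 : c1 ≠ d3 := dis _ (by simp) _ (by simp)
  have c2d1 : c2 ≠ d1 := dis _ (by simp) _ (by simp)
  have c2d3 : c2 ≠ d3 := dis _ (by simp) _ (by simp)
  have c3y : c3 ≠ y := dis _ (by simp) _ (by simp)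
  refine ⟨a2, a1.ne', a3, ?_, ?_, ?_, ?_, ?_⟩ <;> intro e <;> rw [e] at a1
  · exact g.notri e2 e3 a1
  · rcases g.nb3 f1 f4.symm xy.symm m2 xd1.symm xd3.symm a1.symm with e | e | e
    exacts [c1d1 e, c1d3 e, e1.ne' e]
  · exact hn c3 x y c2 c1 d1 e4 xy e2.symm a1 e3.symm e1 f1 c3y c2d1 n2.symm c1y.symm n1 xd1
  · rcases g.nb3 f2.symm f3 cd.symm m2 c2d1.symm c2d3.symm a1.symm with e | e | e
    exacts [c1d1 e, c1d3 e, e2.ne e]
  · exact hn c3 x y c2 c1 d3 e4 xy e2.symm a1 e3.symm e1 f4.symm c3y c2d3 n2.symm c1y.symm n1 xd3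

theorem c8_ne (g : Gr G col) (h : Sq G x c1 c2 c3) {a1 a3 : V} (h1 : Th G c1 x c2 a1)
    (h3 : Th G c3 x c2 a3) : a1 ≠ a3 := by
  intro e
  rw [← e] at h3
  exact g.k23 h.bd h.ab.symm h.bc h1.1 h.da h.cd.symm h3.1 h.ac h1.2.1.symm h1.2.2.symm

/-- The neighbours of the first square outside the two squares. -/
theorem c8_nb (g : Gr G col) (h : Two G x c1 c2 c3 y d1 d2 d3) (xy : G.Adj x y)
    (cd : G.Adj c2 d2) {a1 a3 : V} (h1 : Th G c1 x c2 a1) (h3 : Th G c3 x c2 a3) {u v : V}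
    (u1 : u ≠ x) (u2 : u ≠ c1) (u3 : u ≠ c2) (u4 : u ≠ c3) (u5 : u ≠ y) (u6 : u ≠ d2)
    (hv : v = x ∨ v = c1 ∨ v = c2 ∨ v = c3) (huv : G.Adj u v) :
    (u = a1 ∧ v = c1) ∨ (u = a3 ∧ v = c3) := by
  obtain ⟨⟨e1, e2, e3, e4, n1, n2⟩, -, dis⟩ := h
  have c1y : c1 ≠ y := dis _ (by simp) _ (by simp)
  have c3y : c3 ≠ y := dis _ (by simp) _ (by simp)
  have c1d2 : c1 ≠ d2 := dis _ (by simp) _ (by simp)
  have c3d2 : c3 ≠ d2 := dis _ (by simp) _ (by simp)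
  rcases hv with e | e | e | e <;> rw [e] at huv
  · rcases g.nb3 e1 e4.symm xy n2 c1y c3y huv.symm with k | k | k
    exacts [absurd k u2, absurd k u4, absurd k u5]
  · rcases g.nb3 e1.symm e2 h1.1 n1 h1.2.1.symm h1.2.2.symm huv.symm with k | k | k
    exacts [absurd k u1, absurd k u3, Or.inl ⟨k, e⟩]
  · rcases g.nb3 e2.symm e3 cd n2 c1d2 c3d2 huv.symm with k | k | k
    exacts [absurd k u2, absurd k u4, absurd k u6]
  · rcases g.nb3 e4 e3.symm h3.1 n1 h3.2.1.symm h3.2.2.symm huv.symm with k | k | k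
    exacts [absurd k u1, absurd k u3, Or.inr ⟨k, e⟩]

end

theorem c8 (h1 : SpS) (h2 : C8gS) : C8S := by
  intro V _ G col g hn hna
  by_contra hgc
  refine hna fun x c1 c2 c3 y d1 d2 d3 two xy cd => hgc ?_
  obtain ⟨a1, ta1⟩ : ∃ a, Th G c1 x c2 a := g.third c1 x c2
  obtain ⟨a3, ta3⟩ : ∃ a, Th G c3 x c2 a := g.third c3 x c2
  obtain ⟨b1, tb1⟩ : ∃ a, Th G d1 y d2 a := g.third d1 y d2
  obtain ⟨b3, tb3⟩ : ∃ a, Th G d3 y d2 a := g.third d3 y d2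
  have oa1 := c8_out g hn two xy cd ta1
  have oa3 := c8_out g hn two.rev1 xy cd ta3
  have ob1 := c8_out g hn two.swap xy.symm cd.symm tb1
  have ob3 := c8_out g hn two.swap.rev1 xy.symm cd.symm tb3
  have na := c8_ne g two.s1 ta1 ta3
  have nb := c8_ne g two.s2 tb1 tb3
  have mem : ∀ z, z ∈ ({x, c1, c2, c3, y, d1, d2, d3} : Finset V)ᶜ ↔
      z ≠ x ∧ z ≠ c1 ∧ z ≠ c2 ∧ z ≠ c3 ∧ z ≠ y ∧ z ≠ d1 ∧ z ≠ d2 ∧ z ≠ d3 := by
    intro z
    simp only [mem_compl, mem_insert, mem_singleton, not_or, ne_eq]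
  obtain ⟨R, a, b, sp⟩ := h1 V G ({x, c1, c2, c3, y, d1, d2, d3} : Finset V)ᶜ {a1, a3} {b1, b3}
    (by
      intro z hz
      rw [mem]
      rcases mem_insert.1 hz with e | e
      · rw [e]; exact oa1
      · rw [mem_singleton.1 e]
        obtain ⟨k1, k2, k3, k4, k5⟩ := oa3
        exact ⟨k1, k4, k3, k2, k5⟩)
    (by
      intro z hz
      rw [mem]
      rcases mem_insert.1 hz with e | e
      · rw [e]
        obtain ⟨k1, k2, k3, k4, k5, k6, k7, k8⟩ := ob1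
        exact ⟨k5, k6, k7, k8, k1, k2, k3, k4⟩
      · rw [mem_singleton.1 e]
        obtain ⟨k1, k2, k3, k4, k5, k6, k7, k8⟩ := ob3
        exact ⟨k5, k6, k7, k8, k1, k4, k3, k2⟩)
    (by
      intro Y hA hW hC
      by_contra hb
      have y1 : b1 ∉ Y := fun e => hb ⟨b1, by simp, e⟩
      have y3 : b3 ∉ Y := fun e => hb ⟨b3, by simp, e⟩
      refine g.cut3 Y (two_le (hA (by simp)) (hA (by simp)) na)
        (two_le_compl (fun e => ((mem _).1 (hW e)).1 rfl) (fun e => ((mem _).1 (hW e)).2.1 rfl)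
          two.s1.ab.ne) a1 c1 a3 c3 a3 c3 ?_
      intro u hu v hv huv
      obtain ⟨k1, k2, k3, k4, k5, k6, k7, k8⟩ := (mem u).1 (hW hu)
      have hv8 : v ∈ ({x, c1, c2, c3, y, d1, d2, d3} : Finset V) := by
        by_contra e
        exact hv (hC u hu v (mem_compl.2 e) huv)
      have hv' : (v = x ∨ v = c1 ∨ v = c2 ∨ v = c3) ∨ (v = y ∨ v = d1 ∨ v = d2 ∨ v = d3) := by
        simpa only [mem_insert, mem_singleton, or_assoc] using hv8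
      rcases hv' with e | e
      · exact (c8_nb g two xy cd ta1 ta3 k1 k2 k3 k4 k5 k7 e huv).imp_right Or.inl
      · rcases c8_nb g two.swap xy.symm cd.symm tb1 tb3 k5 k6 k7 k8 k1 k3 e huv with k | k
        · exact absurd (k.1 ▸ hu) y1
        · exact absurd (k.1 ▸ hu) y3)
  have av : ∀ z ∈ R, z ≠ x ∧ z ≠ c1 ∧ z ≠ c2 ∧ z ≠ c3 ∧ z ≠ y ∧ z ≠ d1 ∧ z ≠ d2 ∧ z ≠ d3 :=
    fun z hz => (mem z).1 (sp.sub hz)
  have ua1 := fun e => sp.ua a1 e (by simp)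
  have ua3 := fun e => sp.ua a3 e (by simp)
  have ub1 := fun e => sp.ub b1 e (by simp)
  have ub3 := fun e => sp.ub b3 e (by simp)
  have ps := sp.ps
  have ma : a = a1 ∨ a = a3 := by simpa using sp.ma
  have mb : b = b1 ∨ b = b3 := by simpa using sp.mb
  rcases ma with ea | ea <;> rcases mb with eb | eb <;> rw [ea, eb] at ps
  · refine h2 V G col x c1 c2 c3 y d1 d2 d3 a1 a3 b1 b3 R g hn two xy cd ta1 ta3 tb1 tb3 ps ?_
      (fun e => na ((ua3 e).trans ea).symm) fun e => nb ((ub3 e).trans eb).symm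
    intro z hz
    obtain ⟨k1, k2, k3, k4, k5, k6, k7, k8⟩ := av z hz
    simp [k1, k2, k3, k4, k5, k6, k7, k8]
  · refine h2 V G col x c1 c2 c3 y d3 d2 d1 a1 a3 b3 b1 R g hn two.rev2 xy cd ta1 ta3 tb3 tb1 ps ?_
      (fun e => na ((ua3 e).trans ea).symm) fun e => nb ((ub1 e).trans eb)
    intro z hz
    obtain ⟨k1, k2, k3, k4, k5, k6, k7, k8⟩ := av z hz
    simp [k1, k2, k3, k4, k5, k6, k7, k8]
  · refine h2 V G col x c3 c2 c1 y d1 d2 d3 a3 a1 b1 b3 R g hn two.rev1 xy cd ta3 ta1 tb1 tb3 ps ?_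
      (fun e => na ((ua1 e).trans ea)) fun e => nb ((ub3 e).trans eb).symm
    intro z hz
    obtain ⟨k1, k2, k3, k4, k5, k6, k7, k8⟩ := av z hz
    simp [k1, k2, k3, k4, k5, k6, k7, k8]
  · refine h2 V G col x c3 c2 c1 y d3 d2 d1 a3 a1 b3 b1 R g hn two.rev1.rev2 xy cd ta3 ta1 tb3 tb1
      ps ?_ (fun e => na ((ua1 e).trans ea)) fun e => nb ((ub1 e).trans eb)
    intro z hz
    obtain ⟨k1, k2, k3, k4, k5, k6, k7, k8⟩ := av z hz
    simp [k1, k2, k3, k4, k5, k6, k7, k8]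

end FP
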