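import Pool.Agent.MP_cccb39_co.Fr.St

namespace FP

open Finset
open scoped Classical

theorem d1 : D1S := by
  intro V _ G col p q w s r t P S W T S' T' g h PT SW nPS nWT ⟨SS', S's, S'W⟩ ⟨TT', T't, T'P⟩ S'T'
  obtain ⟨cw, cr, cS, cT, cq, cs, ct, cP, cW⟩ := h.cols g
  have cp : col p = col p := rfl
  have cS' : col S' = !col p := (g.same SS'.symm h.sS.symm).trans cs
  have cT' : col T' = !col p := (g.same TT'.symm h.tT.symm).trans ct
  have ne : ∀ {x y : V}, col x = col p → col y = (!col p) → x ≠ y := fun hx hy e => by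
    rw [e, hy] at hx
    revert hx
    cases col p <;> simp
  have na : ∀ {x y : V} {c : Bool}, col x = c → col y = c → ¬ G.Adj x y := fun hx hy e =>
    g.bip _ _ e (hx.trans hy.symm)
  have qT : ¬ G.Adj q T := fun e => by
    rcases h.nq g e with e | e | e
    exacts [h.T_p e, h.T_w e, h.T_r e]
  have qS : ¬ G.Adj q S := fun e => by
    rcases h.nq g e with e | e | e
    exacts [h.S_p e, h.S_w e, h.S_r e]
  have wP : ¬ G.Adj w P := fun e => by
    rcases h.nw g e with e | e | e
    exacts [h.P_q e, h.P_t e, h.P_W e]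
  have pW : ¬ G.Adj p W := fun e => by
    rcases h.np g e with e | e | e
    exacts [h.W_q e, h.W_s e, h.P_W e.symm]
  have sT : ¬ G.Adj s T := fun e => by
    rcases h.ns g e with e | e | e
    exacts [h.T_r e, h.T_p e, h.S_T e.symm]
  have tS : ¬ G.Adj t S := fun e => by
    rcases h.nt g e with e | e | e
    exacts [h.S_r e, h.S_w e, h.S_T e]
  have S'q : S' ≠ q := fun e => qS (e ▸ SS'.symm)
  have T'q : T' ≠ q := fun e => qT (e ▸ TT'.symm)
  have S'P : S' ≠ P := fun e => nPS (e ▸ SS'.symm)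
  have T'W : T' ≠ W := fun e => nWT (e ▸ TT'.symm)
  have T's : T' ≠ s := fun e => sT (e ▸ TT'.symm)
  have S't : S' ≠ t := fun e => tS (e ▸ SS'.symm)
  have a1 := (PS.one G T).ext P (by simp [(ne cT cP).symm]) PT (by simp)
  have a2 := a1.ext p (by simp [ne cp cP, h.T_p.symm]) h.pP (by simp [na cp cT])
  have a3 := a2.ext q (by simp [(ne cp cq).symm, h.P_q.symm, (ne cT cq).symm]) h.pq.symm
    (by simp [na cq cP, qT])
  have a4 := a3.ext w (by simp [ne cw cq, h.p_w.symm, ne cw cP, h.T_w.symm]) h.qw.symm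
    (by simp [na cw cp, wP, na cw cT])
  have a5 := a4.ext W
    (by simp [(ne cw cW).symm, h.W_q, (ne cp cW).symm, h.P_W.symm, (ne cT cW).symm]) h.wW.symm
    (by simp [na cW cq, na cW cP, nWT, show ¬ G.Adj W p from fun e => pW e.symm])
  have a6 := a5.ext S (by simp [ne cS cW, h.S_w, ne cS cq, h.S_p, ne cS cP, h.S_T]) SW
    (by simp [na cS cw, na cS cp, na cS cT, show ¬ G.Adj S q from fun e => qS e.symm,
      show ¬ G.Adj S P from fun e => nPS e.symm])
  have out : ∀ x, col x = (!col p) → x ≠ W → x ≠ q → x ≠ P →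
      x ∉ insert S (insert W (insert w (insert q (insert p (insert P ({T} : Finset V)))))) :=
    fun x cx e1 e2 e3 => by
      simp [(ne cS cx).symm, (ne cw cx).symm, (ne cp cx).symm, (ne cT cx).symm, e1, e2, e3]
  have rQ : r ∉ insert S (insert W (insert w (insert q (insert p (insert P ({T} : Finset V)))))) := by
    simp [h.S_r.symm, ne cr cW, h.w_r.symm, ne cr cq, h.p_r.symm, ne cr cP, h.T_r.symm]
  refine ⟨_, S, T, s, S', t, T', a6, h.S_T, out s cs h.W_s.symm h.q_s.symm h.P_s.symm,
    out S' cS' S'W S'q S'P, out t ct h.W_t.symm h.q_t.symm h.P_t.symm, out T' cT' T'W T'q T'P,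
    S's.symm, h.s_t, T's.symm, S't, S'T', T't.symm, h.sS.symm, SS', h.tT.symm, TT',
    ⟨p, by simp, h.S_p.symm, h.ps.symm⟩, ⟨w, by simp, h.T_w.symm, h.wt.symm⟩,
    fun x hx e e' => ?_, fun x hx e e' => ?_, fun e => na cs ct e.1, fun e => na cs cT' e.1,
    fun Y hY => ?_⟩
  · rcases h.ns g e with rfl | rfl | rfl
    · rcases h.nr g e'.symm with e | e | e
      exacts [S's e, S't e, S'q e]
    · exact hx (by simp)
    · exact hx (by simp)
  · rcases h.nt g e with rfl | rfl | rfl
    · rcases h.nr g e'.symm with e | e | e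
      exacts [T's e, T't e, T'q e]
    · exact hx (by simp)
    · exact hx (by simp)
  · have rY : r ∈ Y := (hY.clo s hY.ma r h.sr).resolve_right fun e => rQ e.1
    rcases hY.clo r rY q h.qr.symm with e | ⟨-, e | e | e | e⟩
    · exact disjoint_left.1 hY.dis e (by simp)
    exacts [ne cr cs e, ne cr cS' e, ne cr ct e, ne cr cT' e]

end FP
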