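import Pool.Agent.MP_cccb39_co.Fr.St

namespace FP

open Finset
open scoped Classical

theorem db : DbS := by
  intro V _ G col X U V1 U' Y S V2 S' o1 o2 R _ hN h hT
  have s1 := h.two.s1
  have s2 := h.two.s2
  have dis : ∀ u v, (u = X ∨ u = U ∨ u = V1 ∨ u = U') → (v = Y ∨ v = S ∨ v = V2 ∨ v = S') →
      u ≠ v := fun u v hu hv => h.two.dis u (by simpa using hu) v (by simpa using hv)
  have mQ : ∀ z, z ∈ DQ R U' V1 S' V2 ↔ z = V2 ∨ z = S' ∨ z = V1 ∨ z = U' ∨ z ∈ R := fun z => by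
    simp only [DQ, mem_insert]
  have p1 := h.ps.ext U' h.nU' s1.da h.rU'
  have p2 := p1.ext V1 (by
      simp only [mem_insert, not_or]
      exact ⟨s1.cd.ne, h.nV1⟩) s1.cd (by
      intro x hx ha
      rcases mem_insert.1 hx with e | e
      · exact e
      · exact absurd ha (h.rV1 x e))
  have p3 := p2.swap.ext S' (by
      simp only [mem_insert, not_or]
      exact ⟨(dis V1 S' (by simp) (by simp)).symm, (dis U' S' (by simp) (by simp)).symm, h.nS'⟩)
    s2.da (by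
      intro x hx ha
      simp only [mem_insert] at hx
      rcases hx with e | e | e
      · exact absurd (e ▸ ha).symm h.x3
      · exact absurd (e ▸ ha).symm h.x1
      · exact h.rS' x e ha)
  have p4 := p3.ext V2 (by
      simp only [mem_insert, not_or]
      exact ⟨s2.cd.ne, (dis V1 V2 (by simp) (by simp)).symm, (dis U' V2 (by simp) (by simp)).symm,
        h.nV2⟩) s2.cd (by
      intro x hx ha
      simp only [mem_insert] at hx
      rcases hx with e | e | e | e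
      · exact e
      · exact absurd (e ▸ ha).symm h.x4
      · exact absurd (e ▸ ha).symm h.x2
      · exact absurd ha (h.rV2 x e))
  have mX : X ∈ DQ R U' V1 S' V2 := (mQ X).2 (by simp [h.ps.m1])
  have mY : Y ∈ DQ R U' V1 S' V2 := (mQ Y).2 (by simp [h.ps.m2])
  have m1 : V1 ∈ DQ R U' V1 S' V2 := (mQ V1).2 (by simp)
  have m2 : V2 ∈ DQ R U' V1 S' V2 := (mQ V2).2 (by simp)
  refine ⟨DQ R U' V1 S' V2, V1, V2, U, o1, S, o2, p4.swap, dis V1 V2 (by simp) (by simp), ?_, ?_,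
    ?_, ?_, h.e1U.symm, dis U S (by simp) (by simp), fun e => h.x5 (e ▸ h.e2.symm),
    fun e => h.x6 (e ▸ h.e1), h.oo, h.e2S.symm, s1.bc.symm, h.e1, s2.bc.symm, h.e2,
    ⟨X, mX, s1.ac, s1.ab.symm⟩, ⟨Y, mY, s2.ac, s2.ab.symm⟩, fun t ht a b => ?_,
    fun t ht a b => ?_, h.db1, h.db2, hT⟩
  · simp only [mQ, not_or]
    exact ⟨dis U V2 (by simp) (by simp), dis U S' (by simp) (by simp), s1.bc.ne, s1.bd, h.nU⟩
  · simp only [mQ, not_or]
    exact ⟨fun e => h.x4 (e ▸ h.e1), fun e => h.x3 (e ▸ h.e1), h.e1.ne', h.e1U',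
      fun e => h.rV1 _ e h.e1⟩
  · simp only [mQ, not_or]
    exact ⟨s2.bc.ne, s2.bd, (dis V1 S (by simp) (by simp)).symm,
      (dis U' S (by simp) (by simp)).symm, h.nS⟩
  · simp only [mQ, not_or]
    exact ⟨h.e2.ne', h.e2S', fun e => h.x4 (e ▸ h.e2).symm, fun e => h.x2 (e ▸ h.e2).symm,
      fun e => h.rV2 _ e h.e2⟩
  · exact hN X U t U' V1 o1 s1.ab a s1.cd.symm h.e1 s1.da.symm s1.bc b.symm
      (fun e => ht (e ▸ mX)) h.e1U'.symm s1.ac (fun e => ht (e ▸ m1)) s1.bd h.e1U.symm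
  · exact hN Y S t S' V2 o2 s2.ab a s2.cd.symm h.e2 s2.da.symm s2.bc b.symm
      (fun e => ht (e ▸ mY)) h.e2S'.symm s2.ac (fun e => ht (e ▸ m2)) s2.bd h.e2S.symm

end FP
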