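import Pool.Agent.MP_cccb39_co.Fr.St

namespace FP

open Finset
open scoped Classical

theorem dommk_ne {V : Type} [Fintype V] {G : SimpleGraph V} {col : V → Bool} (g : Gr G col)
    {p q w s r t P : V} (pq : G.Adj p q) (qw : G.Adj q w) (sr : G.Adj s r) (rt : G.Adj r t)
    (ps : G.Adj p s) (qr : G.Adj q r) (wt : G.Adj w t) (p_w : p ≠ w) (s_t : s ≠ t) (p_r : p ≠ r)
    (w_r : w ≠ r) (q_s : q ≠ s) (q_t : q ≠ t) (pP : G.Adj p P) (wP : G.Adj w P) (P_q : P ≠ q)
    (P_s : P ≠ s) (P_t : P ≠ t) : False := by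
  obtain ⟨S, sS, S1, S2⟩ := g.third s r p
  obtain ⟨T, tT, T1, T2⟩ := g.third t r w
  obtain ⟨Z, PZ, Z1, Z2⟩ := g.third P p w
  refine g.cut3 [p, q, w, s, r, t, P].toFinset (two_le (a := p) (b := w) (by simp) (by simp) p_w)
    (g.small _ (by simp)) s S t T P Z ?_
  intro u hu v hv huv
  simp only [List.toFinset_cons, List.toFinset_nil, insert_empty_eq, mem_insert, mem_singleton,
    not_or] at hu hv
  obtain ⟨v1, v2, v3, v4, v5, v6, v7⟩ := hv
  rcases hu with e | e | e | e | e | e | e <;> rw [e] at huv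
  · rcases g.nb3 pq ps pP q_s P_q.symm P_s.symm huv with e' | e' | e'
    · exact absurd e' v2
    · exact absurd e' v4
    · exact absurd e' v7
  · rcases g.nb3 pq.symm qw qr p_w p_r w_r huv with e' | e' | e'
    · exact absurd e' v1
    · exact absurd e' v3
    · exact absurd e' v5
  · rcases g.nb3 qw.symm wt wP q_t P_q.symm P_t.symm huv with e' | e' | e'
    · exact absurd e' v2
    · exact absurd e' v6
    · exact absurd e' v7
  · rcases g.nb3 sr ps.symm sS p_r.symm S1.symm S2.symm huv with e' | e' | e'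
    · exact absurd e' v5
    · exact absurd e' v1
    · exact Or.inl ⟨e, e'⟩
  · rcases g.nb3 sr.symm rt qr.symm s_t q_s.symm q_t.symm huv with e' | e' | e'
    · exact absurd e' v4
    · exact absurd e' v6
    · exact absurd e' v2
  · rcases g.nb3 rt.symm wt.symm tT w_r.symm T1.symm T2.symm huv with e' | e' | e'
    · exact absurd e' v5
    · exact absurd e' v3
    · exact Or.inr (Or.inl ⟨e, e'⟩)
  · rcases g.nb3 pP.symm wP.symm PZ p_w Z1.symm Z2.symm huv with e' | e' | e'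
    · exact absurd e' v1
    · exact absurd e' v3
    · exact Or.inr (Or.inr ⟨e, e'⟩)

theorem domMk : DomMkS := by
  intro V _ G col g h
  by_contra hc
  refine h fun p q w s r t pq qw sr rt ps qr wt p_w s_t p_r w_r q_s q_t => hc ?_
  obtain ⟨P, pP, P_q, P_s⟩ := g.third p q s
  obtain ⟨S, sS, S_p, S_r⟩ := g.third s p r
  obtain ⟨W, wW, W_q, W_t⟩ := g.third w q t
  obtain ⟨T, tT, T_w, T_r⟩ := g.third t w r
  have n1 : ¬ G.Adj p t := fun pt => g.k23 p_r pq ps pt qr.symm sr.symm rt q_s q_t s_t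
  have n2 : ¬ G.Adj w s := fun ws =>
    g.k23 w_r qw.symm wt ws qr.symm rt sr.symm q_t q_s s_t.symm
  have P_t : P ≠ t := fun e => n1 (e ▸ pP)
  have T_p : T ≠ p := fun e => n1 (e ▸ tT).symm
  have W_s : W ≠ s := fun e => n2 (e ▸ wW)
  have S_w : S ≠ w := fun e => n2 (e ▸ sS).symm
  have P_W : P ≠ W := fun e => dommk_ne g pq qw sr rt ps qr wt p_w s_t p_r w_r q_s q_t pP
    (e ▸ wW) P_q P_s P_t
  have S_T : S ≠ T := fun e => dommk_ne g sr rt pq qw ps.symm qr.symm wt.symm s_t p_w q_s.symm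
    q_t.symm p_r.symm w_r.symm sS (e ▸ tT) S_r S_p S_w
  exact ⟨p, q, w, s, r, t, P, S, W, T, pq, qw, sr, rt, ps, qr, wt, pP, sS, wW, tT, p_w, s_t, p_r,
    w_r, q_s, q_t, P_q, P_s, P_t, W_q, W_t, W_s, S_p, S_r, S_w, T_w, T_r, T_p, P_W, S_T⟩

end FP
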