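import Pool.Agent.MP_cccb39_co.Fr.St

namespace FP

open Finset
open scoped Classical

theorem dsp_out {V : Type} [Fintype V] {G : SimpleGraph V} {col : V → Bool}
    {p q w s r t P S W T : V} (g : Gr G col) (h : Dom G p q w s r t P S W T) :
    P ≠ p ∧ P ≠ q ∧ P ≠ w ∧ P ≠ s ∧ P ≠ r ∧ P ≠ t :=
  ⟨h.pP.ne', h.P_q, fun e => g.bip p P h.pP (e ▸ g.same h.pq h.qw), h.P_s,
    fun e => g.bip p P h.pP (e ▸ g.same h.pq h.qr), h.P_t⟩

theorem dsp (h1 : SpS) : DspS := by
  intro V _ G col p q w s r t P S W T g h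
  have m : ∀ x, x ∈ ({p, q, w, s, r, t} : Finset V)ᶜ ↔
      x ≠ p ∧ x ≠ q ∧ x ≠ w ∧ x ≠ s ∧ x ≠ r ∧ x ≠ t := fun x => by
    simp only [mem_compl, mem_insert, mem_singleton, not_or, ne_eq]
  have hP := dsp_out g h
  obtain ⟨a1, a2, a3, a4, a5, a6⟩ := dsp_out g h.refl
  obtain ⟨b1, b2, b3, b4, b5, b6⟩ := dsp_out g h.flip
  obtain ⟨c1, c2, c3, c4, c5, c6⟩ := dsp_out g h.flip.refl
  refine h1 V G _ _ _ (fun x hx => ?_) (fun x hx => ?_) fun Y hA hY hc => ?_
  · rcases mem_insert.1 hx with rfl | hx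
    · exact (m _).2 hP
    · obtain rfl := mem_singleton.1 hx
      exact (m _).2 ⟨a3, a2, a1, a6, a5, a4⟩
  · rcases mem_insert.1 hx with rfl | hx
    · exact (m _).2 ⟨b4, b5, b6, b1, b2, b3⟩
    · obtain rfl := mem_singleton.1 hx
      exact (m _).2 ⟨c6, c5, c4, c3, c2, c1⟩
  · by_contra hn
    have nS : S ∉ Y := fun e => hn ⟨S, mem_insert_self _ _, e⟩
    have nT : T ∉ Y := fun e => hn ⟨T, mem_insert_of_mem (mem_singleton_self _), e⟩
    refine g.cut3 Y (two_le (hA (mem_insert_self _ _))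
      (hA (mem_insert_of_mem (mem_singleton_self _))) h.P_W)
      (two_le_compl (fun e => ((m p).1 (hY e)).1 rfl) (fun e => ((m q).1 (hY e)).2.1 rfl) h.pq.ne)
      P p W w W w fun y hy v hv e => ?_
    obtain ⟨y1, y2, y3, y4, y5, y6⟩ := (m y).1 (hY hy)
    have hv6 : v ∈ ({p, q, w, s, r, t} : Finset V) := by
      by_contra c
      exact hv (hc y hy v (mem_compl.2 c) e)
    simp only [mem_insert, mem_singleton] at hv6
    rcases hv6 with k | k | k | k | k | k <;> rw [k] at e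
    · exact Or.inl ⟨((h.np g e.symm).resolve_left y2).resolve_left y4, k⟩
    · exact (y5 (((h.nq g e.symm).resolve_left y1).resolve_left y3)).elim
    · exact Or.inr (Or.inl ⟨((h.nw g e.symm).resolve_left y2).resolve_left y6, k⟩)
    · exact (nS (((h.ns g e.symm).resolve_left y5).resolve_left y1 ▸ hy)).elim
    · exact (y2 (((h.nr g e.symm).resolve_left y4).resolve_left y6)).elim
    · exact (nT (((h.nt g e.symm).resolve_left y5).resolve_left y3 ▸ hy)).elim

end FP
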