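import Pool.Agent.MP_cccb39_co.Fr.St

namespace FP

open Finset
open scoped Classical

theorem fold_end {V : Type} [Fintype V] {G : SimpleGraph V} {col : V → Bool} (g : Gr G col)
    {K : Cov V} (hK : IsCov G univ K) {Q : Finset V} {v p a a' : V} (hp : p ∈ Q) (vp : G.Adj v p)
    (na : a ∉ Q) (na' : a' ∉ Q) (aa : a ≠ a') (va : G.Adj v a) (va' : G.Adj v a')
    {β β' : Equiv.Perm (Fin 3)} (hβ : ∀ i j, K a i v j → j = β i)
    (hβ' : ∀ i j, K a' i v j → j = β' i) {I : Type} [Fintype I] {φ : I → V → Fin 3}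
    (hu : Unif fun i => φ i a) (he : ∀ i, β' (φ i a') = β (φ i a)) :
    ∃ ρ : I → Fin 3, Unif ρ ∧ ∀ i, ∀ o ∈ Qᶜ, ∀ c, K o (φ i o) v c → c = ρ i := by
  refine ⟨fun i => β (φ i a), hu.perm β, fun i o ho c hc => ?_⟩
  rcases g.nb3 va va' vp aa (fun e => na (e ▸ hp)) (fun e => na' (e ▸ hp))
    (hK.adj _ _ _ _ hc).symm with e | e | e
  · subst e
    exact hβ _ _ hc
  · subst e
    exact (hβ' _ _ hc).trans (he i)
  · exact absurd (e ▸ hp) (mem_compl.1 ho)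

theorem fold (hE : ExtS) (h1 : OneS) (h2 : ThreadS) (h3 : MgPackS) (h4 : FoldAS) : FoldS := by
  rintro V _ G col K g ⟨Q, v1, v2, a, a', s, s', gc⟩ hK
  have hb : ∀ u v, ∃ β : Equiv.Perm (Fin 3), ∀ i j, K u i v j → j = β i := fun u v =>
    hE (fun i j => K u i v j) (fun i j j' => hK.uniq u (mem_univ _) v (mem_univ _) i j j')
      fun i i' j h h' => hK.uniq v (mem_univ _) u (mem_univ _) j i i' (hK.symm _ _ _ _ h)
        (hK.symm _ _ _ _ h')
  obtain ⟨β1, b1⟩ := hb a v1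
  obtain ⟨β1', b1'⟩ := hb a' v1
  obtain ⟨β2, b2⟩ := hb s v2
  obtain ⟨β2', b2'⟩ := hb s' v2
  obtain ⟨c1, I, _, φ, τ, p0⟩ :=
    h4 V G col Q v1 v2 a a' s s' K (β1.trans β1'.symm) (β2.trans β2'.symm) g gc hK
  have p1 := h3 V _ _ _ s s' _ I φ τ c1 (mem_erase.2 ⟨gc.d4.symm, mem_compl.2 gc.ns⟩) gc.d6 p0
  have p2 := h3 V G Qᶜ K a a' _ I _ τ (hK.mono (subset_univ _)) (mem_compl.2 gc.na) gc.d1 p1
  have key := h2 V G univ Qᶜ Q K I _ τ hK (subset_univ _) (subset_univ _) disjoint_compl_left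
    gc.ps.fo p2 ?_
  · rwa [union_comm, union_compl] at key
  intro v hv
  by_cases e1 : v = v1
  · subst e1
    obtain ⟨p, hp, vp⟩ := gc.ps.n1 gc.ne
    refine fold_end g hK hp vp gc.na gc.na' gc.d1 gc.e1 gc.e1' b1 b1'
      (p2.un a (mem_compl.2 gc.na)) fun i => ?_
    simp [Function.update_of_ne gc.d1]
  by_cases e2 : v = v2
  · subst e2
    obtain ⟨p, hp, vp⟩ := gc.ps.n2 gc.ne
    refine fold_end g hK hp vp gc.ns gc.ns' gc.d6 gc.e2 gc.e2' b2 b2'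
      (p2.un s (mem_compl.2 gc.ns)) fun i => ?_
    simp [Function.update_of_ne gc.d4.symm, Function.update_of_ne gc.d5.symm,
      Function.update_of_ne gc.d6]
  obtain ⟨p, hp, q, hq, pq, vp, vq⟩ := gc.ps.inn v hv e1 e2
  refine h1 V G univ Qᶜ K I _ τ v hK (subset_univ _) (mem_univ _) p2 fun o ho o' ho' vo vo' => ?_
  rcases g.nb3 vp vq vo pq (fun e => mem_compl.1 ho (e ▸ hp)) (fun e => mem_compl.1 ho (e ▸ hq))
    vo' with e | e | e
  · exact absurd (e ▸ hp) (mem_compl.1 ho')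
  · exact absurd (e ▸ hq) (mem_compl.1 ho')
  · exact e.symm

end FP
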