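import Pool.Agent.MP_cccb39_co.Fr.St

namespace FP

open Finset
open scoped Classical

theorem foldA (h1 : NS) (h2 : MgCovS) (h3 : MgDegS) (h4 : OutS) (h5 : FoldNCS) : FoldAS := by
  intro V _ G col Q v1 v2 a a' s s' K θ η g gc hK
  have ma' : a' ∈ Qᶜ := mem_compl.2 gc.na'
  have c1 : IsCov (mg G a a') (Qᶜ.erase a') (mk K a a' θ) :=
    h2 V G Qᶜ K a a' θ (hK.mono (subset_univ _)) (mem_compl.2 gc.na) ma' gc.d1
      (g.notri gc.e1.symm gc.e1') fun t ht => gc.p1 t (mem_compl.1 ht)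
  have hs : s ∈ Qᶜ.erase a' := mem_erase.2 ⟨gc.d4.symm, mem_compl.2 gc.ns⟩
  have hs' : s' ∈ Qᶜ.erase a' := mem_erase.2 ⟨gc.d5.symm, mem_compl.2 gc.ns'⟩
  have c2 := h2 V (mg G a a') (Qᶜ.erase a') (mk K a a' θ) s s' η c1 hs hs' gc.d6
    (by
      rintro ⟨-, h | ⟨h, -⟩ | ⟨h, -⟩⟩
      · exact g.notri gc.e2.symm gc.e2' h
      · exact gc.d2 h.symm
      · exact gc.d3 h.symm)
    (by
      rintro t ht ⟨-, h | ⟨h, -⟩ | ⟨e, h⟩⟩ ⟨-, h' | ⟨h', -⟩ | ⟨e', h'⟩⟩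
      · exact gc.p2 t (mem_compl.1 (mem_of_mem_erase ht)) h h'
      · exact gc.d3 h'.symm
      · exact gc.db1 ⟨(e' ▸ h).symm, h'⟩
      · exact gc.d2 h.symm
      · exact gc.d2 h.symm
      · exact gc.d2 h.symm
      · exact gc.db2 ⟨(e ▸ h').symm, h⟩
      · exact gc.d3 h'.symm
      · exact gc.p2 a' gc.na' h.symm h'.symm)
  obtain ⟨a1, a2, a3⟩ := h3 V G Qᶜ a a' ma'
  obtain ⟨b1, b2, b3⟩ := h3 V (mg G a a') (Qᶜ.erase a') s s' hs'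
  refine ⟨c1, h1 V _ _ col _ c2 (b3 col (a3 col (fun u _ v _ h => g.bip u v h)
    (g.same gc.e1.symm gc.e1')) (g.same gc.e2.symm gc.e2')) (fun v _ => ?_)
    (h5 V G col Q v1 v2 a a' s s' g gc)⟩
  by_cases e : v = s
  · obtain ⟨w, hw, w1, w2⟩ := gc.l2
    have x1 := (h4 V G col Q s g).2.2.1 v2 gc.ps.m2 w hw w1.symm gc.e2.symm w2
    have x2 := (h4 V G col Q s' g).2.1 v2 gc.ps.m2 gc.e2'.symm
    have x3 := a1 s gc.d2.symm
    have x4 := a1 s' gc.d3.symm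
    rw [e]
    omega
  · refine (b1 v e).trans ?_
    by_cases e' : v = a
    · obtain ⟨w, hw, w1, w2⟩ := gc.l1
      have x1 := (h4 V G col Q a g).2.2.1 v1 gc.ps.m1 w hw w1.symm gc.e1.symm w2
      have x2 := (h4 V G col Q a' g).2.1 v1 gc.ps.m1 gc.e1'.symm
      rw [e']
      omega
    · exact (a1 v e').trans (h4 V G col Q v g).1

end FP
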