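import Pool.Agent.MP_cccb39_co.Fr.St

namespace FP

open Finset
open scoped Classical

theorem foldNC (h3 : MgDegS) (h4 : OutS) : FoldNCS := by
  intro V _ G col Q v1 v2 a a' s s' g h Z hZ hne hc
  by_contra hn
  push Not at hn
  have ca : col a = col a' := g.same h.e1.symm h.e1'
  have cs : col s = col s' := g.same h.e2.symm h.e2'
  have ma' : a' ∈ Qᶜ := mem_compl.2 h.na'
  have ms' : s' ∈ Qᶜ.erase a' := mem_erase.2 ⟨h.d5.symm, mem_compl.2 h.ns'⟩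
  obtain ⟨A1, A2, -⟩ := h3 V G Qᶜ a a' ma'
  obtain ⟨B1, B2, -⟩ := h3 V (mg G a a') (Qᶜ.erase a') s s' ms'
  obtain ⟨wa, hwa, wa1, wa2⟩ := h.l1
  obtain ⟨ws, hws, ws1, ws2⟩ := h.l2
  let π : V → V := fun v => if v = a' then a else if v = s' then s else v
  have πa : π a = a := by simp [π, h.d1, h.d3]
  have πa' : π a' = a := by simp [π]
  have πs : π s = s := by simp [π, h.d4.symm, h.d6]
  have πs' : π s' = s := by simp [π, h.d5.symm]
  have πo : ∀ v, v ≠ a' → v ≠ s' → π v = v := fun v e1 e2 => by simp [π, e1, e2]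
  have πc : ∀ v, col (π v) = col v := by
    intro v
    by_cases e1 : v = a'
    · rw [e1, πa', ca]
    by_cases e2 : v = s'
    · rw [e2, πs', cs]
    rw [πo v e1 e2]
  have πm : ∀ v, v ∉ Q → π v ∈ (Qᶜ.erase a').erase s' := by
    intro v hv
    by_cases e1 : v = a'
    · rw [e1, πa']; simp [h.d1, h.d3, h.na]
    by_cases e2 : v = s'
    · rw [e2, πs']; simp [h.d4.symm, h.d6, h.ns]
    rw [πo v e1 e2]; simp [e1, e2, hv]
  have πadj : ∀ y v, G.Adj y v → (mg (mg G a a') s s').Adj (π y) (π v) := by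
    intro y v hyv
    have hne : π y ≠ π v := fun e => g.bip _ _ hyv (by rw [← πc y, e, πc])
    refine ⟨hne, ?_⟩
    by_cases y1 : y = a'
    · subst y1
      by_cases v2' : v = s'
      · subst v2'
        rw [πa', πs']
        exact Or.inr (Or.inr ⟨rfl, h.d3.symm, Or.inr (Or.inr ⟨rfl, hyv⟩)⟩)
      · have v1' : v ≠ y := hyv.ne.symm
        rw [πa', πo v v1' v2'] at hne ⊢
        exact Or.inl ⟨hne, Or.inr (Or.inl ⟨rfl, hyv⟩)⟩
    by_cases y2 : y = s'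
    · subst y2
      by_cases v1' : v = a'
      · subst v1'
        rw [πa', πs']
        exact Or.inr (Or.inl ⟨rfl, h.d3.symm, Or.inr (Or.inr ⟨rfl, hyv.symm⟩)⟩)
      · have v2' : v ≠ y := hyv.ne.symm
        rw [πs', πo v v1' v2'] at hne ⊢
        exact Or.inr (Or.inl ⟨rfl, hyv.ne, Or.inl hyv⟩)
    rw [πo y y1 y2] at hne ⊢
    by_cases v1' : v = a'
    · subst v1'
      rw [πa'] at hne ⊢
      exact Or.inl ⟨hne, Or.inr (Or.inr ⟨rfl, hyv.symm⟩)⟩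
    by_cases v2' : v = s'
    · subst v2'
      rw [πs'] at hne ⊢
      exact Or.inr (Or.inr ⟨rfl, hyv.ne.symm, Or.inl hyv.symm⟩)
    rw [πo v v1' v2'] at hne ⊢
    exact Or.inl ⟨hne, Or.inl hyv⟩
  let Y : Finset V := univ.filter fun v => v ∉ Q ∧ π v ∈ Z
  have mY : ∀ v, v ∈ Y ↔ v ∉ Q ∧ π v ∈ Z := fun v => by simp [Y]
  have cl1 : ∀ y ∈ Y, ∀ v, G.Adj y v → v ∉ Q → v ∈ Y := fun y hy v hyv hv =>
    (mY v).2 ⟨hv, hc _ ((mY y).1 hy).2 _ (πm v hv) (πadj y v hyv)⟩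
  have cl2 : ∀ y ∈ Y, ∀ v ∈ Q, G.Adj y v → y = a ∨ y = a' ∨ y = s ∨ y = s' := by
    intro y hy v hv hyv
    by_contra hh
    push Not at hh
    obtain ⟨e1, e2, e3, e4⟩ := hh
    have hz := ((mY y).1 hy).2
    rw [πo y e2 e4] at hz
    have := hn y hz
    have := B1 y e3
    have := A1 y e1
    have := (h4 V G col Q y g).2.1 v hv hyv
    omega
  have fa : a ∈ Z → (∃ x, x ∉ Q ∧ G.Adj a x) ∧ ∀ w ∈ Q, G.Adj a' w → w = v1 := by
    intro hz
    have := hn a hz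
    have := B1 a h.d2
    have k1 := (h4 V G col Q a g).2.2.1 wa hwa v1 h.ps.m1 wa1 wa2 h.e1.symm
    have k2 := (h4 V G col Q a' g).2.1 v1 h.ps.m1 h.e1'.symm
    refine ⟨(h4 V G col Q a g).2.2.2 (by omega), fun w hw hw' => ?_⟩
    by_contra e
    have := (h4 V G col Q a' g).2.2.1 w hw v1 h.ps.m1 e hw' h.e1'.symm
    omega
  have fs : s ∈ Z → (∃ x, x ∉ Q ∧ G.Adj s x) ∧ ∀ w ∈ Q, G.Adj s' w → w = v2 := by
    intro hz
    have := hn s hz
    have := A1 s h.d2.symm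
    have := A1 s' h.d3.symm
    have k1 := (h4 V G col Q s g).2.2.1 ws hws v2 h.ps.m2 ws1 ws2 h.e2.symm
    have k2 := (h4 V G col Q s' g).2.1 v2 h.ps.m2 h.e2'.symm
    refine ⟨(h4 V G col Q s g).2.2.2 (by omega), fun w hw hw' => ?_⟩
    by_contra e
    have := (h4 V G col Q s' g).2.2.1 w hw v2 h.ps.m2 e hw' h.e2'.symm
    omega
  have c2 : 2 ≤ Yᶜ.card := two_le_compl (a := v1) (b := v2)
    (fun e => ((mY _).1 e).1 h.ps.m1) (fun e => ((mY _).1 e).1 h.ps.m2) h.ne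
  have ya : ∀ y ∈ Y, y = a ∨ y = a' → a ∈ Z := by
    rintro y hy (rfl | rfl)
    · exact πa ▸ ((mY _).1 hy).2
    · exact πa' ▸ ((mY _).1 hy).2
  have ys : ∀ y ∈ Y, y = s ∨ y = s' → s ∈ Z := by
    rintro y hy (rfl | rfl)
    · exact πs ▸ ((mY _).1 hy).2
    · exact πs' ▸ ((mY _).1 hy).2
  have bQ : ∀ y ∈ Y, ∀ v, v ∉ Y → G.Adj y v → v ∈ Q := fun y hy v hv hyv => by
    by_contra e; exact hv (cl1 y hy v hyv e)
  by_cases za : a ∈ Z <;> by_cases zs : s ∈ Z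
  · refine h.cl Y ⟨disjoint_left.2 fun v hv => ((mY v).1 hv).1, (mY _).2 ⟨h.na, πa.symm ▸ za⟩,
      (mY _).2 ⟨h.na', πa'.symm ▸ za⟩, (mY _).2 ⟨h.ns, πs.symm ▸ zs⟩,
      (mY _).2 ⟨h.ns', πs'.symm ▸ zs⟩, fun y hy v hyv => ?_, (fa za).1, (fs zs).1, (fa za).2,
      (fs zs).2⟩
    by_cases e : v ∈ Q
    · exact Or.inr ⟨e, cl2 y hy v e hyv⟩
    · exact Or.inl (cl1 y hy v hyv e)
  · obtain ⟨⟨x, hx, hx'⟩, ht⟩ := fa za
    refine g.cut3 Y (two_le ((mY _).2 ⟨h.na, πa.symm ▸ za⟩) ((mY _).2 ⟨h.na', πa'.symm ▸ za⟩)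
      h.d1) c2 a v1 a wa a' v1 fun y hy v hv hyv => ?_
    have hq := bQ y hy v hv hyv
    rcases cl2 y hy v hq hyv with e | e | e | e
    · subst e
      rcases g.nb3 h.e1.symm wa2 hx' wa1.symm (fun e => hx (e ▸ h.ps.m1))
        (fun e => hx (e ▸ hwa)) hyv with e | e | e
      · exact Or.inl ⟨rfl, e⟩
      · exact Or.inr (Or.inl ⟨rfl, e⟩)
      · exact absurd hq (e ▸ hx)
    · subst e
      exact Or.inr (Or.inr ⟨rfl, ht v hq hyv⟩)
    · exact absurd (ys y hy (Or.inl e)) zs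
    · exact absurd (ys y hy (Or.inr e)) zs
  · obtain ⟨⟨x, hx, hx'⟩, ht⟩ := fs zs
    refine g.cut3 Y (two_le ((mY _).2 ⟨h.ns, πs.symm ▸ zs⟩) ((mY _).2 ⟨h.ns', πs'.symm ▸ zs⟩)
      h.d6) c2 s v2 s ws s' v2 fun y hy v hv hyv => ?_
    have hq := bQ y hy v hv hyv
    rcases cl2 y hy v hq hyv with e | e | e | e
    · exact absurd (ya y hy (Or.inl e)) za
    · exact absurd (ya y hy (Or.inr e)) za
    · subst e
      rcases g.nb3 h.e2.symm ws2 hx' ws1.symm (fun e => hx (e ▸ h.ps.m2))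
        (fun e => hx (e ▸ hws)) hyv with e | e | e
      · exact Or.inl ⟨rfl, e⟩
      · exact Or.inr (Or.inl ⟨rfl, e⟩)
      · exact absurd hq (e ▸ hx)
    · subst e
      exact Or.inr (Or.inr ⟨rfl, ht v hq hyv⟩)
  · have nb : ∀ y ∈ Y, ∀ v, v ∉ Y → G.Adj y v → False := by
      intro y hy v hv hyv
      rcases cl2 y hy v (bQ y hy v hv hyv) hyv with e | e | e | e
      · exact za (ya y hy (Or.inl e))
      · exact za (ya y hy (Or.inr e))
      · exact zs (ys y hy (Or.inl e))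
      · exact zs (ys y hy (Or.inr e))
    obtain ⟨z, hz⟩ := hne
    have hz' := hZ hz
    simp only [mem_erase, mem_compl] at hz'
    have zY : z ∈ Y := (mY z).2 ⟨hz'.2.2, by rw [πo z hz'.2.1 hz'.1]; exact hz⟩
    obtain ⟨u, hu, -, -⟩ := g.third z z z
    have uY : u ∈ Y := by by_contra e; exact nb z zY u e hu
    exact g.cut3 Y (two_le zY uY hu.ne) c2 a a a a a a fun y hy v hv hyv =>
      (nb y hy v hv hyv).elim

end FP
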