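import Pool.Agent.MP_cccb39_co.Fr.St

namespace FP

open Finset
open scoped Classical

theorem genA : GenAS := by
  intro V _ G col x c1 c2 c3 y d1 d2 d3 o1 o2 R hG h hn
  refine ⟨h.two, h.ps, h.nc _ (by simp), h.nc _ (by simp), h.nc _ (by simp), h.nd _ (by simp),
    h.nd _ (by simp), h.nd _ (by simp), h.rc _ (by simp), fun z hz ha => ?_, h.rd _ (by simp),
    fun z hz ha => ?_, h.cd _ (by simp) _ (by simp), h.cd _ (by simp) _ (by simp),
    h.cd _ (by simp) _ (by simp), h.cd _ (by simp) _ (by simp), h.cd _ (by simp) _ (by simp),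
    h.cd _ (by simp) _ (by simp), h.e1, h.e11, h.e13, h.e2, h.e21, h.e23, h.oo,
    fun h1 => h.cd _ (by simp) _ (by simp) h1.1, hn⟩
  · obtain rfl := h.rc c2 (by simp) z hz ha
    exact hG.notri h.two.s1.1 h.two.s1.2 ha.symm
  · obtain rfl := h.rd d2 (by simp) z hz ha
    exact hG.notri h.two.s2.1 h.two.s2.2 ha.symm

end FP
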