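import Pool.Agent.MP_cccb39_co.Fr.St

set_option linter.unusedSectionVars false

namespace FP

open Finset
open scoped Classical

section
variable {V : Type} [Fintype V] {G : SimpleGraph V} {col : V → Bool}

theorem genmk_n {x c1 c2 c3 : V} {R : Finset V} (s : Sq G x c1 c2 c3)
    (ua : ∀ z ∈ R, z ∈ ({x, c1, c2, c3} : Finset V) → z = x) :
    ∀ u ∈ ({c1, c2, c3} : Finset V), u ∉ R := by
  intro u hu hR
  have e := ua u hR (mem_insert_of_mem hu)
  simp only [mem_insert, mem_singleton] at hu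
  rcases hu with rfl | rfl | rfl
  · exact s.ab.ne e.symm
  · exact s.ac e.symm
  · exact s.da.ne e

theorem genmk_r (g : Gr G col) {x c1 c2 c3 : V} {R : Finset V} (s : Sq G x c1 c2 c3)
    (ua : ∀ z ∈ R, z ∈ ({x, c1, c2, c3} : Finset V) → z = x)
    (ja : ∀ a' ∈ ({x, c1, c2, c3} : Finset V), ∀ z ∈ R, G.Adj a' z → z = x ∨ G.Adj x z) :
    ∀ u ∈ ({c1, c2, c3} : Finset V), ∀ z ∈ R, G.Adj u z → z = x := by
  intro u hu z hz huz
  rcases ja u (mem_insert_of_mem hu) z hz huz with e | e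
  · exact e
  exfalso
  have n := genmk_n s ua
  simp only [mem_insert, mem_singleton] at hu
  rcases hu with rfl | rfl | rfl
  · exact g.notri s.ab huz e
  · refine g.k23 s.ac s.ab s.da.symm e s.bc.symm s.cd huz s.bd ?_ ?_
    · rintro rfl
      exact n _ (by simp) hz
    · rintro rfl
      exact n _ (by simp) hz
  · exact g.notri s.da.symm huz e

theorem genmk_11 (nd : NoDom G) {x c1 c2 c3 y d1 d2 d3 : V} (t : Two G x c1 c2 c3 y d1 d2 d3)
    (hxy : G.Adj x y) : ¬ G.Adj c1 d1 := fun h =>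
  nd c3 x y c2 c1 d1 t.s1.da hxy t.s1.bc.symm h t.s1.cd.symm t.s1.ab t.s2.ab
    (t.dis _ (by simp) _ (by simp)) (t.dis _ (by simp) _ (by simp)) t.s1.bd.symm
    (t.dis _ (by simp) _ (by simp)).symm t.s1.ac (t.dis _ (by simp) _ (by simp))

theorem genmk_12 (g : Gr G col) {x c1 c2 c3 y d1 d2 d3 : V} (t : Two G x c1 c2 c3 y d1 d2 d3)
    (hxy : G.Adj x y) : ¬ G.Adj c1 d2 := fun h =>
  g.bip _ _ h ((g.same t.s1.ab.symm hxy).trans (g.same t.s2.ab t.s2.bc))

end

theorem genMk : GenMkS := by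
  intro V _ G col x c1 c2 c3 y d1 d2 d3 R g nd na nb t sp
  obtain ⟨o1, e1, e11, e13⟩ := g.third c2 c1 c3
  obtain ⟨o2, e2, e21, e23⟩ := g.third d2 d1 d3
  have hne : x ≠ y := t.dis _ (by simp) _ (by simp)
  have ed : ∀ u ∈ ({x, c1, c2, c3} : Finset V), ∀ v ∈ ({y, d1, d2, d3} : Finset V),
      G.Adj u v → G.Adj x y := fun u hu v hv h => (sp.k1 u hu v hv h).resolve_left hne
  refine ⟨o1, o2, t, sp.ps, genmk_n t.s1 sp.ua, genmk_n t.s2 sp.ub,
    genmk_r g t.s1 sp.ua sp.ja, genmk_r g t.s2 sp.ub sp.jb, ?_, e1, e11, e13, e2, e21, e23, ?_⟩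
  · intro u hu v hv h
    have hxy := ed u (mem_insert_of_mem hu) v (mem_insert_of_mem hv) h
    simp only [mem_insert, mem_singleton] at hu hv
    rcases hu with rfl | rfl | rfl <;> rcases hv with rfl | rfl | rfl
    · exact genmk_11 nd t hxy h
    · exact genmk_12 g t hxy h
    · exact genmk_11 nd t.rev2 hxy h
    · exact genmk_12 g t.swap hxy.symm h.symm
    · exact na _ _ _ _ _ _ _ _ t hxy h
    · exact genmk_12 g t.swap.rev1 hxy.symm h.symm
    · exact genmk_11 nd t.rev1 hxy h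
    · exact genmk_12 g t.rev1 hxy h
    · exact genmk_11 nd t.rev1.rev2 hxy h
  · rintro rfl
    have hc : col x = col y :=
      (g.same t.s1.ab t.s1.bc).trans ((g.same e1 e2.symm).trans (g.same t.s2.ab t.s2.bc).symm)
    have nxy : ¬ G.Adj x y := fun h => g.bip _ _ h hc
    have out : ∀ p : V, ∀ u ∈ ({x, c1, c2, c3} : Finset V),
        ∀ v ∈ ({y, d1, d2, d3} : Finset V), G.Adj u p → G.Adj p v →
        p ∉ ({x, c1, c2, c3, y, d1, d2, d3} : Finset V) := by
      intro p u hu v hv h1 h2 hp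
      have : p ∈ ({x, c1, c2, c3} : Finset V) ∨ p ∈ ({y, d1, d2, d3} : Finset V) := by
        simp only [mem_insert, mem_singleton] at hp ⊢
        tauto
      rcases this with h | h
      · exact nxy (ed p h v hv h2)
      · exact nxy (ed u hu p h h1)
    rcases sp.k2 c2 (by simp) d2 (by simp) o1 (mem_univ _) e1 e2.symm with h | h | ⟨p, -, h1, h2⟩
    · exact hne h
    · exact nxy h
    · exact nb x c1 c2 c3 y d1 d2 d3 p o1 ⟨t, h1.symm, h2, e1.symm, e2.symm,
        out p x (by simp) y (by simp) h1 h2, out o1 c2 (by simp) d2 (by simp) e1 e2.symm⟩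

end FP
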