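import Pool.Agent.MP_cccb39_co.Fr.St

namespace FP

open Finset
open scoped Classical

theorem lev : LevS := by
  intro V _ G W A hA
  obtain ⟨P, h0, hs⟩ : ∃ P : ℕ → V → Prop, (∀ v, P 0 v ↔ v ∈ A) ∧
      ∀ n v, P (n + 1) v ↔ v ∈ W ∧ ∃ u, P n u ∧ G.Adj v u :=
    ⟨fun n => Nat.rec (fun v => v ∈ A) (fun _ Q v => v ∈ W ∧ ∃ u, Q u ∧ G.Adj v u) n,
      fun _ => Iff.rfl, fun _ _ => Iff.rfl⟩
  have m : ∀ v, v ∈ univ.filter (fun v => ∃ n, P n v) ↔ ∃ n, P n v := fun v => by simp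
  have a : ∀ v, v ∈ univ.filter (fun v => ∃ n, P n v) → P (sInf {n | P n v}) v :=
    fun v hv => Nat.sInf_mem (s := {n | P n v}) ((m v).1 hv)
  have b : ∀ n v, P n v → sInf {n | P n v} ≤ n := fun n v h => Nat.sInf_le h
  have w : ∀ v, v ∈ univ.filter (fun v => ∃ n, P n v) → v ∈ W := fun v hv => by
    obtain ⟨n, hn⟩ := (m v).1 hv
    cases n with
    | zero => exact hA ((h0 v).1 hn)
    | succ n => exact ((hs n v).1 hn).1
  refine ⟨univ.filter fun v => ∃ n, P n v, fun v => sInf {n | P n v}, w, ?_,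
    fun v hv => (m v).2 ⟨0, (h0 v).2 hv⟩, fun v hv => ⟨fun h => (h0 v).1 (h ▸ a v hv),
      fun h => Nat.le_zero.1 (b 0 v ((h0 v).2 h))⟩,
    fun u hu v hv h => b _ v ((hs _ v).2 ⟨w v hv, u, a u hu, h.symm⟩), fun v hv i h => ?_⟩
  · intro u hu v hv h
    exact (m v).2 ⟨_, (hs _ v).2 ⟨hv, u, a u hu, h.symm⟩⟩
  · obtain ⟨hw, u, hu, hvu⟩ := (hs i v).1 (h ▸ a v hv)
    have hu' := (m u).2 ⟨i, hu⟩
    have h1 := b _ v ((hs _ v).2 ⟨hw, u, a u hu', hvu⟩)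
    have h2 := b i u hu
    exact ⟨u, hu', hvu, by omega⟩

end FP
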