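import Pool.Agent.MP_cccb39_co.Fr.St

/-! The merged cover is a cover of the merged graph. -/

namespace FP

open Finset
open scoped Classical

theorem mgCov : MgCovS := by
  intro V _ H S K a a' θ h _ ha' _ hna hc
  refine ⟨?_, ?_, ?_⟩
  · intro u i v j hk
    rcases hk with e | e | e
    · exact Or.inl (h.symm _ _ _ _ e)
    · exact Or.inr (Or.inr e)
    · exact Or.inr (Or.inl e)
  · intro u i v j hk
    rcases hk with e | ⟨e1, e⟩ | ⟨e1, e⟩
    · have := h.adj _ _ _ _ e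
      exact ⟨this.ne, Or.inl this⟩
    · have := h.adj _ _ _ _ e
      refine ⟨fun e2 => hna ?_, Or.inr (Or.inl ⟨e1, this⟩)⟩
      rw [← e1, e2]
      exact this.symm
    · have := h.adj _ _ _ _ e
      refine ⟨fun e2 => hna ?_, Or.inr (Or.inr ⟨e1, this⟩)⟩
      rw [← e1, ← e2]
      exact this.symm
  · intro u hu v hv i j j' h1 h2
    have hu' := mem_of_mem_erase hu
    have hv' := mem_of_mem_erase hv
    rcases h1 with e | ⟨e1, e⟩ | ⟨e1, e⟩ <;> rcases h2 with f | ⟨f1, f⟩ | ⟨f1, f⟩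
    · exact h.uniq u hu' v hv' i j j' e f
    · exact (hc v hv' (f1 ▸ h.adj _ _ _ _ e) (h.adj _ _ _ _ f)).elim
    · exact (hc u hu' (f1 ▸ (h.adj _ _ _ _ e).symm) (h.adj _ _ _ _ f)).elim
    · exact (hc v hv' (e1 ▸ h.adj _ _ _ _ f) (h.adj _ _ _ _ e)).elim
    · exact h.uniq a' ha' v hv' (θ i) j j' e f
    · exact (hna (f1 ▸ (h.adj _ _ _ _ e).symm)).elim
    · exact (hc u hu' (e1 ▸ (h.adj _ _ _ _ f).symm) (h.adj _ _ _ _ e)).elim
    · exact (hna (e1 ▸ (h.adj _ _ _ _ f).symm)).elim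
    · exact θ.injective (h.uniq u hu' a' ha' i _ _ (h.symm _ _ _ _ e) (h.symm _ _ _ _ f))

end FP
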