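import Pool.Agent.MP_cccb39_co.Fr.St

namespace FP

open Finset
open scoped Classical

theorem n_unif : Unif (fun i : Fin 3 => i) := by
  intro c
  rw [filter_eq']
  simp

theorem n_dg {V : Type} [Fintype V] (H : SimpleGraph V) {S T : Finset V} (h : S ⊆ T) (v : V) :
    dg H S v ≤ dg H T v := card_le_card (filter_subset_filter _ h)

theorem n_nc {V : Type} [Fintype V] (H : SimpleGraph V) {S T : Finset V} (h : S ⊆ T)
    (hd : ∀ v ∈ T, dg H T v ≤ 3) (hn : NC H T) : NC H S := by
  intro Z hZ hne hc
  by_contra hcon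
  push Not at hcon
  have he : ∀ z ∈ Z, (S.filter fun w => H.Adj z w) = T.filter fun w => H.Adj z w := by
    intro z hz
    refine eq_of_subset_of_card_le (filter_subset_filter _ h) ?_
    exact (hd z (h (hZ hz))).trans (hcon z hz)
  have hcl : Clo H T Z := by
    intro z hz v hv hzv
    have hm : v ∈ S.filter fun w => H.Adj z w := by
      rw [he z hz]; exact mem_filter.2 ⟨hv, hzv⟩
    exact hc z hz v (mem_filter.1 hm).1 hzv
  obtain ⟨z, hz, hlt⟩ := hn Z (hZ.trans h) hne hcl
  have h1 := hcon z hz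
  have h2 := n_dg H h z
  omega

theorem n (h1 : StepS) (h2 : OneS) (h3 : ThreadS) : NS := by
  intro V _ H S col K
  induction S using Finset.strongInduction with
  | H S ih =>
    intro hK hB hd hn
    rcases S.eq_empty_or_nonempty with rfl | hne
    · exact ⟨Fin 3, inferInstance, fun _ _ => 0, fun i => i,
        ⟨inferInstance, by simp, by simp, n_unif⟩⟩
    · obtain ⟨Q, hQ, hQn, hF, hu⟩ := h1 V H S col hB hd hn hne
      have hs : S \ Q ⊆ S := sdiff_subset
      have hss : S \ Q ⊂ S := sdiff_ssubset hQ hQn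
      obtain ⟨I, _, φ, τ, hP⟩ := ih (S \ Q) hss (hK.mono hs)
        (fun u hu v hv => hB u (hs hu) v (hs hv))
        (fun v hv => (n_dg H hs v).trans (hd v (hs hv))) (n_nc H hs hd hn)
      have := h3 V H S (S \ Q) Q K I φ τ hK hs hQ sdiff_disjoint hF hP
        (fun v hv => h2 V H S (S \ Q) K I φ τ v hK hs (hQ hv) hP (hu v hv))
      rwa [sdiff_union_of_subset hQ] at this

end FP
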