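import Pool.Agent.MP_cccb39_co.Fr.St

namespace FP

open Finset
open scoped Classical

theorem one (hE : ExtS) : OneS := by
  intro V _ H T S K I _ φ τ v hK hS hv hP hu
  by_cases h : ∃ o ∈ S, H.Adj v o
  · obtain ⟨o, ho, hvo⟩ := h
    obtain ⟨β, hβ⟩ := hE (fun i j => K o i v j) (hK.uniq o (hS ho) v hv) fun i i' j h1 h2 =>
      hK.uniq v hv o (hS ho) j i i' (hK.symm _ _ _ _ h1) (hK.symm _ _ _ _ h2)
    refine ⟨fun i => β (φ i o), (hP.un o ho).perm β, fun i o' ho' c hc => ?_⟩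
    obtain rfl := hu o ho o' ho' hvo (hK.adj _ _ _ _ hc).symm
    exact hβ _ _ hc
  · exact ⟨τ, hP.ut, fun i o ho c hc => (h ⟨o, ho, (hK.adj _ _ _ _ hc).symm⟩).elim⟩

end FP
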