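import Pool.Agent.MP_cccb39_co.Fr.St

namespace FP

open Finset
open scoped Classical

theorem out : OutS := by
  intro V _ G col Q z hG
  have h3 : (univ.filter fun w => G.Adj z w).card = 3 := hG.cub z
  have hm : ∀ v, G.Adj z v → v ∈ univ.filter fun w => G.Adj z w := fun v hv =>
    mem_filter.2 ⟨mem_univ _, hv⟩
  have hs : ∀ x ∈ Qᶜ.filter fun w => G.Adj z w, x ∉ Q ∧ G.Adj z x := fun x hx =>
    ⟨mem_compl.1 (mem_filter.1 hx).1, (mem_filter.1 hx).2⟩
  refine ⟨?_, fun v hv a => ?_, fun v hv w hw hvw a b => ?_, fun h => ?_⟩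
  · exact (card_le_card fun x hx => hm x (hs x hx).2).trans h3.le
  · have h1 : (Qᶜ.filter fun w => G.Adj z w) ⊆ (univ.filter fun w => G.Adj z w).erase v :=
      fun x hx => mem_erase.2 ⟨fun e => (hs x hx).1 (e ▸ hv), hm x (hs x hx).2⟩
    have h2 := card_le_card h1
    rw [card_erase_of_mem (hm v a), h3] at h2
    exact h2
  · have h1 : (Qᶜ.filter fun w => G.Adj z w) ⊆
        ((univ.filter fun w => G.Adj z w).erase v).erase w :=
      fun x hx => mem_erase.2 ⟨fun e => (hs x hx).1 (e ▸ hw),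
        mem_erase.2 ⟨fun e => (hs x hx).1 (e ▸ hv), hm x (hs x hx).2⟩⟩
    have h2 := card_le_card h1
    rw [card_erase_of_mem (mem_erase.2 ⟨hvw.symm, hm w b⟩), card_erase_of_mem (hm v a), h3] at h2
    exact h2
  · obtain ⟨x, hx⟩ := card_pos.1 h
    exact ⟨x, hs x hx⟩

end FP
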