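import Pool.Agent.MP_cccb39_co.Fr.St

namespace FP

open Finset
open scoped Classical

theorem par : ParS := by
  intro V _ H S Z col a hB hZ hC ha h2 h3
  have e1 : ∀ (b : Bool), ∀ z ∈ Z.filter (fun z => col z = b),
      dg H S z = ((Z.filter fun z => ¬ col z = b).filter fun w => H.Adj z w).card := by
    intro b z hz
    obtain ⟨z1, z2⟩ := mem_filter.1 hz
    unfold dg
    congr 1
    ext w
    simp only [mem_filter]
    exact ⟨fun h => ⟨⟨hC z z1 w h.1 h.2, fun e => hB z (hZ z1) w h.1 h.2 (z2.trans e.symm)⟩, h.2⟩,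
      fun h => ⟨hZ h.1.1, h.2⟩⟩
  have e2 : ∀ z ∈ Z.filter (fun z => ¬ col z = col a),
      dg H S z = ((Z.filter fun z => col z = col a).filter fun w => H.Adj w z).card := by
    intro z hz
    obtain ⟨z1, z2⟩ := mem_filter.1 hz
    unfold dg
    congr 1
    ext w
    simp only [mem_filter]
    refine ⟨fun h => ⟨⟨hC z z1 w h.1 h.2, ?_⟩, h.2.symm⟩, fun h => ⟨hZ h.1.1, h.2.symm⟩⟩
    have := hB z (hZ z1) w h.1 h.2
    revert this z2
    cases col z <;> cases col w <;> cases col a <;> simp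
  have e3 : ∑ z ∈ Z.filter (fun z => col z = col a), dg H S z =
      ∑ z ∈ Z.filter (fun z => ¬ col z = col a), dg H S z := by
    rw [sum_congr rfl (e1 (col a)), sum_congr rfl e2]
    exact sum_card_bipartiteAbove_eq_sum_card_bipartiteBelow fun z w => H.Adj z w
  have ma : a ∈ Z.filter (fun z => col z = col a) := mem_filter.2 ⟨ha, rfl⟩
  have e4 : ∀ z ∈ Z.filter (fun z => ¬ col z = col a), dg H S z = 3 := fun z hz =>
    h3 z (mem_filter.1 hz).1 fun e => (mem_filter.1 hz).2 (by rw [e])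
  rw [← add_sum_erase _ _ ma, h2, sum_congr rfl e4,
    sum_congr rfl fun z hz => h3 z (mem_filter.1 (mem_of_mem_erase hz)).1 (ne_of_mem_erase hz)]
    at e3
  simp only [sum_const, smul_eq_mul] at e3
  omega

end FP
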