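import Pool.Agent.MP_cccb39_co.Fr.St

namespace FP

open Finset
open scoped Classical

theorem step_three {V : Type} [Fintype V] {H : SimpleGraph V} {S : Finset V} {v p q r : V}
    (hp : p ∈ S) (hq : q ∈ S) (hr : r ∈ S) (a : H.Adj v p) (b : H.Adj v q) (c : H.Adj v r)
    (pq : p ≠ q) (pr : p ≠ r) (qr : q ≠ r) : 3 ≤ dg H S v :=
  two_lt_card_iff.2 ⟨p, q, r, mem_filter.2 ⟨hp, a⟩, mem_filter.2 ⟨hq, b⟩, mem_filter.2 ⟨hr, c⟩,
    pq, pr, qr⟩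

theorem step_four {V : Type} [Fintype V] {H : SimpleGraph V} {S : Finset V} {v p q r t : V}
    (hp : p ∈ S) (hq : q ∈ S) (hr : r ∈ S) (ht : t ∈ S) (a : H.Adj v p) (b : H.Adj v q)
    (c : H.Adj v r) (d : H.Adj v t) (pq : p ≠ q) (pr : p ≠ r) (qr : q ≠ r) (tp : p ≠ t)
    (tq : q ≠ t) (tr : r ≠ t) : 4 ≤ dg H S v := by
  have h1 : 2 < ((S.filter fun w => H.Adj v w).erase t).card :=
    two_lt_card_iff.2 ⟨p, q, r, mem_erase.2 ⟨tp, mem_filter.2 ⟨hp, a⟩⟩,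
      mem_erase.2 ⟨tq, mem_filter.2 ⟨hq, b⟩⟩, mem_erase.2 ⟨tr, mem_filter.2 ⟨hr, c⟩⟩, pq, pr, qr⟩
  have h2 := card_erase_lt_of_mem (mem_filter.2 ⟨ht, d⟩ : t ∈ S.filter fun w => H.Adj v w)
  unfold dg
  omega

theorem step (h1 : SpS) (h2 : ParS) : StepS := by
  intro V _ H S col hb h3 hnc hne
  by_cases hv : ∃ v ∈ S, dg H S v ≤ 1
  · obtain ⟨v, hv, hd⟩ := hv
    refine ⟨{v}, singleton_subset_iff.2 hv, singleton_nonempty v, (PS.one H v).fo, ?_⟩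
    intro u hu o ho o' ho' a a'
    rw [mem_singleton.1 hu] at a a'
    exact card_le_one.1 hd o (mem_filter.2 ⟨(mem_sdiff.1 ho).1, a⟩) o'
      (mem_filter.2 ⟨(mem_sdiff.1 ho').1, a'⟩)
  push Not at hv
  obtain ⟨a, ha, hda⟩ := hnc S subset_rfl hne fun _ _ _ hv _ => hv
  have ha2 : dg H S a = 2 := by
    have := hv a ha
    omega
  obtain ⟨R, a', b, sp⟩ := h1 V H S {a} (S.filter fun v => v ≠ a ∧ dg H S v = 2)
    (singleton_subset_iff.2 ha) (filter_subset _ _) fun Y hY hYS hc => by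
      by_contra hn
      push Not at hn
      refine h2 V H S Y col a hb hYS hc (singleton_subset_iff.1 hY) ha2 fun z hz hza => ?_
      have e1 := hv z (hYS hz)
      have e2 := h3 z (hYS hz)
      have e3 : dg H S z ≠ 2 := fun e => hn z (mem_filter.2 ⟨hYS hz, hza, e⟩) hz
      omega
  have ea : a' = a := mem_singleton.1 sp.ma
  subst ea
  obtain ⟨-, hba, hb2⟩ := mem_filter.1 sp.mb
  refine ⟨R, sp.sub, ⟨_, sp.ps.m1⟩, sp.ps.fo, fun v hvR o ho o' ho' e e' => ?_⟩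
  by_contra hoo
  obtain ⟨o1, o2⟩ := mem_sdiff.1 ho
  obtain ⟨o1', o2'⟩ := mem_sdiff.1 ho'
  have k : ∀ p ∈ R, H.Adj v p → 3 ≤ dg H S v := fun p hp hvp =>
    step_three (sp.sub hp) o1 o1' hvp e e' (fun h => o2 (h ▸ hp)) (fun h => o2' (h ▸ hp)) hoo
  by_cases c1 : v = a'
  · obtain ⟨p, hp, hp'⟩ := sp.ps.n1 hba.symm
    have := k p hp (c1 ▸ hp')
    rw [c1] at this
    omega
  by_cases c2 : v = b
  · obtain ⟨p, hp, hp'⟩ := sp.ps.n2 hba.symm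
    have := k p hp (c2 ▸ hp')
    rw [c2] at this
    omega
  obtain ⟨p, hp, q, hq, pq, vp, vq⟩ := sp.ps.inn v hvR c1 c2
  have := step_four (sp.sub hp) (sp.sub hq) o1 o1' vp vq e e' pq (fun h => o2 (h ▸ hp))
    (fun h => o2 (h ▸ hq)) (fun h => o2' (h ▸ hp)) (fun h => o2' (h ▸ hq)) hoo
  have := h3 v (sp.sub hvR)
  omega

end FP
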