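import Pool.Agent.MP_cccb39_co.Fr.Two
import Pool.Agent.MP_cccb39_co.Fr.Ext
import Pool.Agent.MP_cccb39_co.Fr.One
import Pool.Agent.MP_cccb39_co.Fr.Thread
import Pool.Agent.MP_cccb39_co.Fr.Lev
import Pool.Agent.MP_cccb39_co.Fr.Lp
import Pool.Agent.MP_cccb39_co.Fr.Sp
import Pool.Agent.MP_cccb39_co.Fr.Par
import Pool.Agent.MP_cccb39_co.Fr.Step
import Pool.Agent.MP_cccb39_co.Fr.N
import Pool.Agent.MP_cccb39_co.Fr.MgCov
import Pool.Agent.MP_cccb39_co.Fr.MgPack
import Pool.Agent.MP_cccb39_co.Fr.MgDeg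
import Pool.Agent.MP_cccb39_co.Fr.Out
import Pool.Agent.MP_cccb39_co.Fr.FoldNC
import Pool.Agent.MP_cccb39_co.Fr.FoldA
import Pool.Agent.MP_cccb39_co.Fr.Fold
import Pool.Agent.MP_cccb39_co.Fr.DomMk
import Pool.Agent.MP_cccb39_co.Fr.L1
import Pool.Agent.MP_cccb39_co.Fr.C1
import Pool.Agent.MP_cccb39_co.Fr.C2
import Pool.Agent.MP_cccb39_co.Fr.C3
import Pool.Agent.MP_cccb39_co.Fr.D1
import Pool.Agent.MP_cccb39_co.Fr.C4
import Pool.Agent.MP_cccb39_co.Fr.Dsp
import Pool.Agent.MP_cccb39_co.Fr.C5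
import Pool.Agent.MP_cccb39_co.Fr.C6
import Pool.Agent.MP_cccb39_co.Fr.Db
import Pool.Agent.MP_cccb39_co.Fr.C8g
import Pool.Agent.MP_cccb39_co.Fr.C8
import Pool.Agent.MP_cccb39_co.Fr.C9
import Pool.Agent.MP_cccb39_co.Fr.C10g
import Pool.Agent.MP_cccb39_co.Fr.C10r
import Pool.Agent.MP_cccb39_co.Fr.C10
import Pool.Agent.MP_cccb39_co.Fr.GenA
import Pool.Agent.MP_cccb39_co.Fr.GenB
import Pool.Agent.MP_cccb39_co.Fr.C11
import Pool.Agent.MP_cccb39_co.Fr.GenMk
import Pool.Agent.MP_cccb39_co.Fr.C12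

namespace FP

open Finset
open scoped Classical

theorem spT : SpS := sp lev lp

theorem nT : NS := n (step spT par) (one ext) (thread two)

theorem foldT : FoldS :=
  fold ext (one ext) (thread two) mgPack (foldA nT mgCov mgDeg out (foldNC mgDeg out))

theorem c5T : C5S := c5 (c1 l1) c2 c3 (c4 d1) (dsp spT)

theorem c12T : C12S :=
  c12 spT (c8 spT (c8g db)) (c10 c9 (c10g db) (c10r spT)) (c11 db genA genB) genMk

theorem hasGC {V : Type} [Fintype V] {G : SimpleGraph V} {col : V → Bool} (g : Gr G col)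
    {x c1 c2 c3 y d1 d2 d3 : V} (h1 : Sq G x c1 c2 c3) (h2 : Sq G y d1 d2 d3)
    (hne : ({x, c1, c2, c3} : Finset V) ≠ {y, d1, d2, d3}) : HasGC G := by
  by_cases h : NoDom G
  · exact c12T V G col _ _ _ _ _ _ _ _ g h (c6 V G col _ _ _ _ _ _ _ _ g h h1 h2 hne)
  · obtain ⟨p, q, w, s, r, t, P, S, W, T, hd⟩ := domMk V G col g h
    exact c5T V G col _ _ _ _ _ _ _ _ _ _ g hd

/-- From covers on three colours to lists with conflict matchings. -/
theorem corr (V : Type) [Fintype V] (G : SimpleGraph V)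
    (hK : ∀ K : Cov V, IsCov G univ K → Pack univ K) (L : V → Finset ℕ)
    (hL : ∀ v, (L v).card = 3) (M : V → ℕ → V → ℕ → Prop)
    (hs : ∀ u x v y, M u x v y → M v y u x) (ha : ∀ u x v y, M u x v y → G.Adj u v)
    (hu : ∀ u x v y y', M u x v y → M u x v y' → y = y') :
    ∃ N : ℕ, 0 < N ∧ ∃ c : Fin (3 * N) → V → ℕ, (∀ k v, c k v ∈ L v) ∧
      (∀ k u v, ¬ M u (c k u) v (c k v)) ∧ ∀ v, ∀ x ∈ L v, {k | c k v = x}.ncard = N := by
  let e : V → Fin 3 → ℕ := fun v j => (L v).orderEmbOfFin (hL v) j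
  have einj : ∀ v, Function.Injective (e v) := fun v => ((L v).orderEmbOfFin (hL v)).injective
  have emem : ∀ v j, e v j ∈ L v := fun v j => (L v).orderEmbOfFin_mem (hL v) j
  have esur : ∀ v, ∀ x ∈ L v, ∃ j, e v j = x := by
    intro v x hx
    have h : x ∈ Set.range ((L v).orderEmbOfFin (hL v)) := by
      rw [range_orderEmbOfFin]; exact hx
    exact h
  obtain ⟨I, hI, φ, τ, hP⟩ := hK (fun u i v j => M u (e u i) v (e v j))
    ⟨fun u i v j h => hs _ _ _ _ h, fun u i v j h => ha _ _ _ _ h,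
      fun u _ v _ i j j' h h' => einj v (hu _ _ _ _ _ h h')⟩
  obtain ⟨N, hN⟩ : ∃ N : ℕ, 3 * N = Fintype.card I := ⟨_, hP.ut 0⟩
  have hpos : 0 < Fintype.card I := Fintype.card_pos_iff.2 hP.ne
  let σ : Fin (3 * N) ≃ I := (Fintype.equivFinOfCardEq hN.symm).symm
  refine ⟨N, by omega, fun k v => e v (φ (σ k) v), fun k v => emem v _, ?_, ?_⟩
  · intro k u v h
    exact hP.prop (σ k) u (mem_univ _) v (mem_univ _) h
  · intro v x hx
    obtain ⟨j, rfl⟩ := esur v x hx
    have h1 := hP.un v (mem_univ _) j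
    have h2 : (univ.filter fun k : Fin (3 * N) => e v (φ (σ k) v) = e v j).card =
        (univ.filter fun i : I => φ i v = j).card := by
      refine card_equiv σ fun k => ?_
      simp only [mem_filter, mem_univ, true_and]
      exact (einj v).eq_iff
    have h3 : 3 * (univ.filter fun i : I => φ i v = j).card = Fintype.card I := h1
    have h4 : (univ.filter fun k : Fin (3 * N) => e v (φ (σ k) v) = e v j).card = N := by omega
    refine Eq.trans ?_ h4
    rw [← Set.ncard_coe_finset]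
    congr 1
    ext k
    simp

theorem mkGr (V : Type) [Fintype V] (G : SimpleGraph V)
    (hcubic : ∀ v, (G.neighborSet v).ncard = 3) (hbip : G.IsBipartite)
    (hcut : ∀ X : Set V, 2 ≤ X.ncard → 2 ≤ Xᶜ.ncard →
      4 ≤ {p : V × V | p.1 ∈ X ∧ p.2 ∉ X ∧ G.Adj p.1 p.2}.ncard)
    (hbig : 14 ≤ Fintype.card V) : ∃ col, Gr G col := by
  obtain ⟨C⟩ := hbip
  refine ⟨fun v => decide (C v = 0), fun v => ?_, fun u v h => ?_, fun X h1 h2 => ?_, hbig⟩
  · rw [← hcubic v, dg, ← Set.ncard_coe_finset]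
    congr 1
    ext w
    simp
  · have := C.valid h
    revert this
    generalize C u = i, C v = j
    revert i j
    decide
  · have := hcut (X : Set V) (by rwa [Set.ncard_coe_finset])
      (by rwa [← coe_compl, Set.ncard_coe_finset])
    rw [bd, ← Set.ncard_coe_finset]
    convert this using 2
    ext p
    simp

end FP
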