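import Mathlib

/-! Fractional packings of covers of cubic bipartite graphs: definitions, small lemmas and the
statements of the steps. -/

set_option linter.unusedSectionVars false

namespace FP

theorem bool10 : ∀ b1 b2 b3 b4 b5 b6 b7 b8 b9 b10 : Bool, b1 ≠ b2 → b2 ≠ b3 → b4 ≠ b5 → b5 ≠ b6 →
    b1 ≠ b4 → b1 ≠ b7 → b4 ≠ b8 → b3 ≠ b9 → b6 ≠ b10 → b3 = b1 ∧ b5 = b1 ∧ b8 = b1 ∧ b10 = b1 ∧
      b2 = !b1 ∧ b4 = !b1 ∧ b6 = !b1 ∧ b7 = !b1 ∧ b9 = !b1 := by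
  intro b1 b2 b3 b4 b5 b6 b7 b8 b9 b10 h1 h2 h3 h4 h5 h6 h7 h8 h9
  have e : ∀ a b : Bool, a ≠ b → b = !a := by decide
  obtain rfl := e _ _ h1
  obtain rfl := e _ _ h2
  obtain rfl := e _ _ h5
  obtain rfl := e _ _ h3
  obtain rfl := e _ _ h4
  obtain rfl := e _ _ h6
  obtain rfl := e _ _ h7
  obtain rfl := e _ _ h8
  obtain rfl := e _ _ h9
  simp

open Finset
open scoped Classical

/-- `K u i v j`: colour `i` at `u` conflicts with colour `j` at `v`. -/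
abbrev Cov (V : Type) := V → Fin 3 → V → Fin 3 → Prop

def Unif {I : Type} [Fintype I] (f : I → Fin 3) : Prop :=
  ∀ c, 3 * (univ.filter fun i => f i = c).card = Fintype.card I

section
variable {V : Type} [Fintype V]

structure IsCov (H : SimpleGraph V) (S : Finset V) (K : Cov V) : Prop where
  symm : ∀ u i v j, K u i v j → K v j u i
  adj : ∀ u i v j, K u i v j → H.Adj u v
  uniq : ∀ u ∈ S, ∀ v ∈ S, ∀ i j j', K u i v j → K u i v j' → j = j'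

structure PackF (S : Finset V) (K : Cov V) (I : Type) [Fintype I] (φ : I → V → Fin 3)
    (τ : I → Fin 3) : Prop where
  ne : Nonempty I
  prop : ∀ i, ∀ u ∈ S, ∀ v ∈ S, ¬ K u (φ i u) v (φ i v)
  un : ∀ v ∈ S, Unif fun i => φ i v
  ut : Unif τ

def Pack (S : Finset V) (K : Cov V) : Prop :=
  ∃ (I : Type) (_ : Fintype I) (φ : I → V → Fin 3) (τ : I → Fin 3), PackF S K I φ τ

/-- Sets that induce a forest. -/
inductive Fo (H : SimpleGraph V) : Finset V → Prop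
  | nil : Fo H ∅
  | ins (Q : Finset V) (v : V) : Fo H Q → v ∉ Q →
      (∀ a ∈ Q, ∀ b ∈ Q, H.Adj v a → H.Adj v b → a = b) → Fo H (insert v Q)

noncomputable def dg (H : SimpleGraph V) (S : Finset V) (v : V) : ℕ :=
  (S.filter fun w => H.Adj v w).card

def Clo (H : SimpleGraph V) (S Z : Finset V) : Prop := ∀ z ∈ Z, ∀ v ∈ S, H.Adj z v → v ∈ Z

def Bip (H : SimpleGraph V) (S : Finset V) (col : V → Bool) : Prop :=
  ∀ u ∈ S, ∀ v ∈ S, H.Adj u v → col u ≠ col v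

/-- No component of `H[S]` is cubic. -/
def NC (H : SimpleGraph V) (S : Finset V) : Prop :=
  ∀ Z ⊆ S, Z.Nonempty → Clo H S Z → ∃ z ∈ Z, dg H S z < 3

noncomputable def bd (G : SimpleGraph V) (X : Finset V) : Finset (V × V) :=
  univ.filter fun p => p.1 ∈ X ∧ p.2 ∉ X ∧ G.Adj p.1 p.2

structure Gr (G : SimpleGraph V) (col : V → Bool) : Prop where
  cub : ∀ v, dg G univ v = 3
  bip : ∀ u v, G.Adj u v → col u ≠ col v
  e4 : ∀ X : Finset V, 2 ≤ X.card → 2 ≤ Xᶜ.card → 4 ≤ (bd G X).card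
  big : 14 ≤ Fintype.card V

/-- `Q` is the vertex set of an induced path with ends `a`, `b` (what is used of it). -/
structure PS (G : SimpleGraph V) (Q : Finset V) (a b : V) : Prop where
  fo : Fo G Q
  m1 : a ∈ Q
  m2 : b ∈ Q
  inn : ∀ v ∈ Q, v ≠ a → v ≠ b → ∃ p ∈ Q, ∃ q ∈ Q, p ≠ q ∧ G.Adj v p ∧ G.Adj v q
  n1 : a ≠ b → ∃ p ∈ Q, G.Adj a p
  n2 : a ≠ b → ∃ p ∈ Q, G.Adj b p

/-- A set outside `Q` that would give a cubic component after the two identifications. -/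
structure Tight (G : SimpleGraph V) (Q : Finset V) (v1 v2 a a' s s' : V) (Y : Finset V) :
    Prop where
  dis : Disjoint Y Q
  ma : a ∈ Y
  ma' : a' ∈ Y
  ms : s ∈ Y
  ms' : s' ∈ Y
  clo : ∀ y ∈ Y, ∀ v, G.Adj y v → v ∈ Y ∨ (v ∈ Q ∧ (y = a ∨ y = a' ∨ y = s ∨ y = s'))
  oa : ∃ x, x ∉ Q ∧ G.Adj a x
  os : ∃ x, x ∉ Q ∧ G.Adj s x
  ta : ∀ w ∈ Q, G.Adj a' w → w = v1
  ts : ∀ w ∈ Q, G.Adj s' w → w = v2

/-- A good configuration. -/
structure GC (G : SimpleGraph V) (Q : Finset V) (v1 v2 a a' s s' : V) : Prop where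
  ps : PS G Q v1 v2
  ne : v1 ≠ v2
  na : a ∉ Q
  na' : a' ∉ Q
  ns : s ∉ Q
  ns' : s' ∉ Q
  d1 : a ≠ a'
  d2 : a ≠ s
  d3 : a ≠ s'
  d4 : a' ≠ s
  d5 : a' ≠ s'
  d6 : s ≠ s'
  e1 : G.Adj v1 a
  e1' : G.Adj v1 a'
  e2 : G.Adj v2 s
  e2' : G.Adj v2 s'
  l1 : ∃ w ∈ Q, w ≠ v1 ∧ G.Adj a w
  l2 : ∃ w ∈ Q, w ≠ v2 ∧ G.Adj s w
  p1 : ∀ t, t ∉ Q → G.Adj a t → ¬ G.Adj a' t
  p2 : ∀ t, t ∉ Q → G.Adj s t → ¬ G.Adj s' t
  db1 : ¬ (G.Adj a s ∧ G.Adj a' s')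
  db2 : ¬ (G.Adj a s' ∧ G.Adj a' s)
  cl : ∀ Y, ¬ Tight G Q v1 v2 a a' s s' Y

def HasGC (G : SimpleGraph V) : Prop := ∃ Q v1 v2 a a' s s', GC G Q v1 v2 a a' s s'

/-- `a'` is identified with `a`. -/
def mg (H : SimpleGraph V) (a a' : V) : SimpleGraph V where
  Adj x y := x ≠ y ∧ (H.Adj x y ∨ (x = a ∧ H.Adj a' y) ∨ (y = a ∧ H.Adj a' x))
  symm := ⟨fun _ _ h => ⟨h.1.symm, h.2.elim (fun e => Or.inl e.symm) fun e => Or.inr e.symm⟩⟩
  loopless := ⟨fun _ h => h.1 rfl⟩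

def mk (K : Cov V) (a a' : V) (θ : Equiv.Perm (Fin 3)) : Cov V := fun u i v j =>
  K u i v j ∨ (u = a ∧ K a' (θ i) v j) ∨ (v = a ∧ K a' (θ j) u i)

/-- A shortest path `R` from `A` to `B` inside `W`. -/
structure Sp (G : SimpleGraph V) (W A B R : Finset V) (a b : V) : Prop where
  ps : PS G R a b
  sub : R ⊆ W
  ma : a ∈ A
  mb : b ∈ B
  ua : ∀ x ∈ R, x ∈ A → x = a
  ub : ∀ x ∈ R, x ∈ B → x = b
  oa : ∀ x ∈ R, ∀ y ∈ R, G.Adj a x → G.Adj a y → x = y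
  ob : ∀ x ∈ R, ∀ y ∈ R, G.Adj b x → G.Adj b y → x = y
  ja : ∀ a' ∈ A, ∀ x ∈ R, G.Adj a' x → x = a ∨ G.Adj a x
  jb : ∀ b' ∈ B, ∀ x ∈ R, G.Adj b' x → x = b ∨ G.Adj b x
  k1 : ∀ a' ∈ A, ∀ b' ∈ B, G.Adj a' b' → a = b ∨ G.Adj a b
  k2 : ∀ a' ∈ A, ∀ b' ∈ B, ∀ t ∈ W, G.Adj a' t → G.Adj t b' →
    a = b ∨ G.Adj a b ∨ ∃ p ∈ W, G.Adj a p ∧ G.Adj p b

/-- A 4-cycle. -/
structure Sq (G : SimpleGraph V) (a b c d : V) : Prop where
  ab : G.Adj a b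
  bc : G.Adj b c
  cd : G.Adj c d
  da : G.Adj d a
  ac : a ≠ c
  bd : b ≠ d

/-- Two 4-cycles `p q r s`, `q w t r` with the third neighbours `P S W T` of `p s w t`. -/
structure Dom (G : SimpleGraph V) (p q w s r t P S W T : V) : Prop where
  pq : G.Adj p q
  qw : G.Adj q w
  sr : G.Adj s r
  rt : G.Adj r t
  ps : G.Adj p s
  qr : G.Adj q r
  wt : G.Adj w t
  pP : G.Adj p P
  sS : G.Adj s S
  wW : G.Adj w W
  tT : G.Adj t T
  p_w : p ≠ w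
  s_t : s ≠ t
  p_r : p ≠ r
  w_r : w ≠ r
  q_s : q ≠ s
  q_t : q ≠ t
  P_q : P ≠ q
  P_s : P ≠ s
  P_t : P ≠ t
  W_q : W ≠ q
  W_t : W ≠ t
  W_s : W ≠ s
  S_p : S ≠ p
  S_r : S ≠ r
  S_w : S ≠ w
  T_w : T ≠ w
  T_r : T ≠ r
  T_p : T ≠ p
  P_W : P ≠ W
  S_T : S ≠ T

def NoDom (G : SimpleGraph V) : Prop := ∀ p q w s r t, G.Adj p q → G.Adj q w → G.Adj s r →
  G.Adj r t → G.Adj p s → G.Adj q r → G.Adj w t → p ≠ w → s ≠ t → p ≠ r → w ≠ r → q ≠ s →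
  q ≠ t → False

variable {G : SimpleGraph V} {col : V → Bool}

theorem Gr.nb3 (h : Gr G col) {v a b c : V} (ha : G.Adj v a) (hb : G.Adj v b) (hc : G.Adj v c)
    (ab : a ≠ b) (ac : a ≠ c) (bc : b ≠ c) {w : V} (hw : G.Adj v w) : w = a ∨ w = b ∨ w = c := by
  have h3 := h.cub v
  unfold dg at h3
  have hs : ({a, b, c} : Finset V) ⊆ univ.filter fun w => G.Adj v w := by
    intro x hx
    simp only [mem_insert, mem_singleton] at hx
    rcases hx with rfl | rfl | rfl <;> simp [*]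
  have hc3 : ({a, b, c} : Finset V).card = 3 := card_eq_three.2 ⟨a, b, c, ab, ac, bc, rfl⟩
  have he := eq_of_subset_of_card_le hs (by omega)
  have : w ∈ ({a, b, c} : Finset V) := by rw [he]; simp [hw]
  simpa using this

theorem Gr.third (h : Gr G col) (v a b : V) : ∃ c, G.Adj v c ∧ c ≠ a ∧ c ≠ b := by
  have h3 := h.cub v
  unfold dg at h3
  by_contra hn
  push Not at hn
  have hs : (univ.filter fun w => G.Adj v w) ⊆ {a, b} := by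
    intro x hx
    have hx' : G.Adj v x := by simpa using hx
    by_cases e : x = a
    · simp [e]
    · simp [hn x hx' e]
  have := (card_le_card hs).trans (card_le_two (a := a) (b := b))
  omega

theorem Gr.cut3 (h : Gr G col) (X : Finset V) (h1 : 2 ≤ X.card) (h2 : 2 ≤ Xᶜ.card)
    (x1 y1 x2 y2 x3 y3 : V)
    (hb : ∀ x ∈ X, ∀ y, y ∉ X → G.Adj x y →
      (x = x1 ∧ y = y1) ∨ (x = x2 ∧ y = y2) ∨ (x = x3 ∧ y = y3)) : False := by
  have h4 := h.e4 X h1 h2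
  have hs : bd G X ⊆ {(x1, y1), (x2, y2), (x3, y3)} := by
    rintro ⟨x, y⟩ hx
    simp only [bd, mem_filter, mem_univ, true_and] at hx
    rcases hb x hx.1 y hx.2.1 hx.2.2 with ⟨rfl, rfl⟩ | ⟨rfl, rfl⟩ | ⟨rfl, rfl⟩ <;> simp
  have := (card_le_card hs).trans card_le_three
  omega

theorem two_le {X : Finset V} {a b : V} (ha : a ∈ X) (hb : b ∈ X) (ab : a ≠ b) : 2 ≤ X.card :=
  one_lt_card.2 ⟨a, ha, b, hb, ab⟩

theorem two_le_compl {X : Finset V} {a b : V} (ha : a ∉ X) (hb : b ∉ X) (ab : a ≠ b) :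
    2 ≤ Xᶜ.card := two_le (mem_compl.2 ha) (mem_compl.2 hb) ab

theorem Gr.small (h : Gr G col) (l : List V) (hl : l.length ≤ 12) : 2 ≤ (l.toFinset)ᶜ.card := by
  have h1 := l.toFinset_card_le
  have h2 := h.big
  rw [card_compl]
  omega

/-- Two neighbours of one vertex have the same colour. -/
theorem Gr.same (h : Gr G col) {u v w : V} (h1 : G.Adj u v) (h2 : G.Adj v w) : col u = col w := by
  have a := h.bip u v h1
  have b := h.bip v w h2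
  revert a b
  cases col u <;> cases col v <;> cases col w <;> simp

theorem Gr.notri (h : Gr G col) {u v w : V} (h1 : G.Adj u v) (h2 : G.Adj v w) : ¬ G.Adj u w :=
  fun h3 => h.bip u w h3 (h.same h1 h2)

theorem Gr.k23 (h : Gr G col) {x y a b c : V} (xy : x ≠ y) (xa : G.Adj x a) (xb : G.Adj x b)
    (xc : G.Adj x c) (ya : G.Adj y a) (yb : G.Adj y b) (yc : G.Adj y c) (ab : a ≠ b)
    (ac : a ≠ c) (bc : b ≠ c) : False := by
  obtain ⟨a', ha, ha1, ha2⟩ := h.third a x y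
  obtain ⟨b', hb, hb1, hb2⟩ := h.third b x y
  obtain ⟨c', hc, hc1, hc2⟩ := h.third c x y
  refine h.cut3 [x, y, a, b, c].toFinset (two_le (a := x) (b := y) (by simp) (by simp) xy)
    (h.small _ (by simp)) a a' b b' c c' ?_
  intro u hu v hv huv
  simp only [List.toFinset_cons, List.toFinset_nil, insert_empty_eq, mem_insert, mem_singleton,
    not_or] at hu hv
  rcases hu with rfl | rfl | rfl | rfl | rfl
  · rcases h.nb3 xa xb xc ab ac bc huv with e | e | e <;> simp [e] at hv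
  · rcases h.nb3 ya yb yc ab ac bc huv with e | e | e <;> simp [e] at hv
  · rcases h.nb3 xa.symm ya.symm ha xy ha1.symm ha2.symm huv with e | e | e <;> simp_all
  · rcases h.nb3 xb.symm yb.symm hb xy hb1.symm hb2.symm huv with e | e | e <;> simp_all
  · rcases h.nb3 xc.symm yc.symm hc xy hc1.symm hc2.symm huv with e | e | e <;> simp_all

theorem PS.one (G : SimpleGraph V) (a : V) : PS G {a} a a where
  fo := by simpa using Fo.ins (H := G) ∅ a Fo.nil (by simp) (by simp)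
  m1 := by simp
  m2 := by simp
  inn := by simp
  n1 := by simp
  n2 := by simp

theorem PS.swap {Q : Finset V} {a b : V} (h : PS G Q a b) : PS G Q b a :=
  ⟨h.fo, h.m2, h.m1, fun v hv h1 h2 => h.inn v hv h2 h1, fun e => h.n2 e.symm,
    fun e => h.n1 e.symm⟩

/-- Extend the path at the end `a`. -/
theorem PS.ext {Q : Finset V} {a b : V} (h : PS G Q a b) (v : V) (hv : v ∉ Q) (ha : G.Adj v a)
    (hu : ∀ x ∈ Q, G.Adj v x → x = a) : PS G (insert v Q) v b where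
  fo := Fo.ins Q v h.fo hv fun x hx y hy h1 h2 => (hu x hx h1).trans (hu y hy h2).symm
  m1 := by simp
  m2 := mem_insert_of_mem h.m2
  inn := by
    intro x hx h1 h2
    have hx' : x ∈ Q := (mem_insert.1 hx).resolve_left h1
    by_cases e : x = a
    · subst e
      obtain ⟨p, hp, hp'⟩ := h.n1 h2
      exact ⟨v, by simp, p, mem_insert_of_mem hp, fun e => hv (e ▸ hp), ha.symm, hp'⟩
    · obtain ⟨p, hp, q, hq, hr⟩ := h.inn x hx' e h2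
      exact ⟨p, mem_insert_of_mem hp, q, mem_insert_of_mem hq, hr⟩
  n1 := fun _ => ⟨a, mem_insert_of_mem h.m1, ha⟩
  n2 := fun _ => by
    by_cases e : a = b
    · subst e; exact ⟨v, by simp, ha.symm⟩
    · obtain ⟨p, hp, hp'⟩ := h.n2 e
      exact ⟨p, mem_insert_of_mem hp, hp'⟩

theorem Sq.rot {a b c d : V} (h : Sq G a b c d) : Sq G b c d a :=
  ⟨h.bc, h.cd, h.da, h.ab, h.bd, h.ac.symm⟩

theorem Sq.rev {a b c d : V} (h : Sq G a b c d) : Sq G a d c b :=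
  ⟨h.da.symm, h.cd.symm, h.bc.symm, h.ab.symm, h.ac, h.bd.symm⟩

variable {p q w s r t P S W T : V}

/-- Exchange the two rows. -/
theorem Dom.flip (h : Dom G p q w s r t P S W T) : Dom G s r t p q w S P T W :=
  ⟨h.sr, h.rt, h.pq, h.qw, h.ps.symm, h.qr.symm, h.wt.symm, h.sS, h.pP, h.tT, h.wW, h.s_t, h.p_w,
    h.q_s.symm, h.q_t.symm, h.p_r.symm, h.w_r.symm, h.S_r, h.S_p, h.S_w, h.T_r, h.T_w, h.T_p,
    h.P_s, h.P_q, h.P_t, h.W_t, h.W_q, h.W_s, h.S_T, h.P_W⟩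

/-- Exchange left and right. -/
theorem Dom.refl (h : Dom G p q w s r t P S W T) : Dom G w q p t r s W T P S :=
  ⟨h.qw.symm, h.pq.symm, h.rt.symm, h.sr.symm, h.wt, h.qr, h.ps, h.wW, h.tT, h.pP, h.sS,
    h.p_w.symm, h.s_t.symm, h.w_r, h.p_r, h.q_t, h.q_s, h.W_q, h.W_t, h.W_s, h.P_q, h.P_s, h.P_t,
    h.T_w, h.T_r, h.T_p, h.S_p, h.S_r, h.S_w, h.P_W.symm, h.S_T.symm⟩

theorem Dom.np (g : Gr G col) (h : Dom G p q w s r t P S W T) {x : V} (hx : G.Adj p x) :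
    x = q ∨ x = s ∨ x = P := g.nb3 h.pq h.ps h.pP h.q_s h.P_q.symm h.P_s.symm hx
theorem Dom.nq (g : Gr G col) (h : Dom G p q w s r t P S W T) {x : V} (hx : G.Adj q x) :
    x = p ∨ x = w ∨ x = r := g.nb3 h.pq.symm h.qw h.qr h.p_w h.p_r h.w_r hx
theorem Dom.nw (g : Gr G col) (h : Dom G p q w s r t P S W T) {x : V} (hx : G.Adj w x) :
    x = q ∨ x = t ∨ x = W := h.refl.np g hx
theorem Dom.ns (g : Gr G col) (h : Dom G p q w s r t P S W T) {x : V} (hx : G.Adj s x) :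
    x = r ∨ x = p ∨ x = S := h.flip.np g hx
theorem Dom.nr (g : Gr G col) (h : Dom G p q w s r t P S W T) {x : V} (hx : G.Adj r x) :
    x = s ∨ x = t ∨ x = q := h.flip.nq g hx
theorem Dom.nt (g : Gr G col) (h : Dom G p q w s r t P S W T) {x : V} (hx : G.Adj t x) :
    x = r ∨ x = w ∨ x = T := h.flip.refl.np g hx

/-- The colours of a domino: `p w r S T` have the colour of `p`, the others the other one. -/
theorem Dom.cols (g : Gr G col) (h : Dom G p q w s r t P S W T) :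
    col w = col p ∧ col r = col p ∧ col S = col p ∧ col T = col p ∧ col q = !col p ∧
      col s = !col p ∧ col t = !col p ∧ col P = !col p ∧ col W = !col p :=
  bool10 _ _ _ _ _ _ _ _ _ _ (g.bip _ _ h.pq) (g.bip _ _ h.qw) (g.bip _ _ h.sr) (g.bip _ _ h.rt)
    (g.bip _ _ h.ps) (g.bip _ _ h.pP) (g.bip _ _ h.sS) (g.bip _ _ h.wW) (g.bip _ _ h.tT)

theorem Unif.perm {I : Type} [Fintype I] {f : I → Fin 3} (h : Unif f) (β : Equiv.Perm (Fin 3)) :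
    Unif fun i => β (f i) := by
  intro c
  have := h (β.symm c)
  simpa [Equiv.eq_symm_apply] using this

theorem IsCov.mono {H : SimpleGraph V} {S T : Finset V} {K : Cov V} (h : IsCov H T K)
    (hs : S ⊆ T) : IsCov H S K :=
  ⟨h.symm, h.adj, fun u hu v hv => h.uniq u (hs hu) v (hs hv)⟩

/-- Levels of a breadth-first search from `A`; `Y` is the set of vertices reached. -/
structure Lev (G : SimpleGraph V) (A Y : Finset V) (lev : V → ℕ) : Prop where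
  sub : A ⊆ Y
  zero : ∀ v ∈ Y, lev v = 0 ↔ v ∈ A
  lip : ∀ u ∈ Y, ∀ v ∈ Y, G.Adj u v → lev v ≤ lev u + 1
  down : ∀ v ∈ Y, ∀ i, lev v = i + 1 → ∃ u ∈ Y, G.Adj v u ∧ lev u = i

/-- A path from `v` down the levels to `a`. -/
structure LP (G : SimpleGraph V) (A Y : Finset V) (lev : V → ℕ) (R : Finset V) (v a : V) :
    Prop where
  ps : PS G R v a
  ma : a ∈ A
  sub : R ⊆ Y
  le : ∀ x ∈ R, lev x ≤ lev v
  inj : ∀ x ∈ R, ∀ y ∈ R, lev x = lev y → x = y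
  con : ∀ x ∈ R, ∀ y ∈ R, lev y = lev x + 1 → G.Adj x y
  all : ∀ j ≤ lev v, ∃ x ∈ R, lev x = j

/-- Two disjoint 4-cycles. -/
structure Two (G : SimpleGraph V) (x c1 c2 c3 y d1 d2 d3 : V) : Prop where
  s1 : Sq G x c1 c2 c3
  s2 : Sq G y d1 d2 d3
  dis : ∀ u ∈ ({x, c1, c2, c3} : Finset V), ∀ v ∈ ({y, d1, d2, d3} : Finset V), u ≠ v

theorem Two.swap {x c1 c2 c3 y d1 d2 d3 : V} (h : Two G x c1 c2 c3 y d1 d2 d3) :
    Two G y d1 d2 d3 x c1 c2 c3 := ⟨h.s2, h.s1, fun u hu v hv => (h.dis v hv u hu).symm⟩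

theorem Two.rev1 {x c1 c2 c3 y d1 d2 d3 : V} (h : Two G x c1 c2 c3 y d1 d2 d3) :
    Two G x c3 c2 c1 y d1 d2 d3 :=
  ⟨h.s1.rev, h.s2, fun u hu v hv => h.dis u (by simp at hu ⊢; tauto) v hv⟩

theorem Two.rot1 {x c1 c2 c3 y d1 d2 d3 : V} (h : Two G x c1 c2 c3 y d1 d2 d3) :
    Two G c1 c2 c3 x y d1 d2 d3 :=
  ⟨h.s1.rot, h.s2, fun u hu v hv => h.dis u (by simp at hu ⊢; tauto) v hv⟩

theorem Two.rev2 {x c1 c2 c3 y d1 d2 d3 : V} (h : Two G x c1 c2 c3 y d1 d2 d3) :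
    Two G x c1 c2 c3 y d3 d2 d1 := h.swap.rev1.swap

theorem Two.rot2 {x c1 c2 c3 y d1 d2 d3 : V} (h : Two G x c1 c2 c3 y d1 d2 d3) :
    Two G x c1 c2 c3 d1 d2 d3 y := h.swap.rot1.swap

/-- The path `V1 U' X … Y S' V2` of a dumbbell. -/
noncomputable def DQ (R : Finset V) (U' V1 S' V2 : V) : Finset V :=
  insert V2 (insert S' (insert V1 (insert U' R)))

/-- Two disjoint squares joined by the path `R` from `X` to `Y`. -/
structure Db (G : SimpleGraph V) (X U V1 U' Y S V2 S' o1 o2 : V) (R : Finset V) : Prop where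
  two : Two G X U V1 U' Y S V2 S'
  ps : PS G R X Y
  nU : U ∉ R
  nV1 : V1 ∉ R
  nU' : U' ∉ R
  nS : S ∉ R
  nV2 : V2 ∉ R
  nS' : S' ∉ R
  rU' : ∀ z ∈ R, G.Adj U' z → z = X
  rV1 : ∀ z ∈ R, ¬ G.Adj V1 z
  rS' : ∀ z ∈ R, G.Adj S' z → z = Y
  rV2 : ∀ z ∈ R, ¬ G.Adj V2 z
  x1 : ¬ G.Adj U' S'
  x2 : ¬ G.Adj U' V2
  x3 : ¬ G.Adj V1 S'
  x4 : ¬ G.Adj V1 V2
  x5 : ¬ G.Adj U V2
  x6 : ¬ G.Adj V1 S
  e1 : G.Adj V1 o1
  e1U : o1 ≠ U
  e1U' : o1 ≠ U'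
  e2 : G.Adj V2 o2
  e2S : o2 ≠ S
  e2S' : o2 ≠ S'
  oo : o1 ≠ o2
  db1 : ¬ (G.Adj U S ∧ G.Adj o1 o2)
  db2 : ¬ (G.Adj U o2 ∧ G.Adj o1 S)

/-- The generic position of two squares and a shortest path between them. -/
structure Gen (G : SimpleGraph V) (x c1 c2 c3 y d1 d2 d3 o1 o2 : V) (R : Finset V) : Prop where
  two : Two G x c1 c2 c3 y d1 d2 d3
  ps : PS G R x y
  nc : ∀ u ∈ ({c1, c2, c3} : Finset V), u ∉ R
  nd : ∀ u ∈ ({d1, d2, d3} : Finset V), u ∉ R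
  rc : ∀ u ∈ ({c1, c2, c3} : Finset V), ∀ z ∈ R, G.Adj u z → z = x
  rd : ∀ u ∈ ({d1, d2, d3} : Finset V), ∀ z ∈ R, G.Adj u z → z = y
  cd : ∀ u ∈ ({c1, c2, c3} : Finset V), ∀ v ∈ ({d1, d2, d3} : Finset V), ¬ G.Adj u v
  e1 : G.Adj c2 o1
  e11 : o1 ≠ c1
  e13 : o1 ≠ c3
  e2 : G.Adj d2 o2
  e21 : o2 ≠ d1
  e23 : o2 ≠ d3
  oo : o1 ≠ o2

theorem Gen.sw1 {x c1 c2 c3 y d1 d2 d3 o1 o2 : V} {R : Finset V}
    (h : Gen G x c1 c2 c3 y d1 d2 d3 o1 o2 R) : Gen G x c3 c2 c1 y d1 d2 d3 o1 o2 R :=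
  have e : ∀ u ∈ ({c3, c2, c1} : Finset V), u ∈ ({c1, c2, c3} : Finset V) := by simp
  ⟨h.two.rev1, h.ps, fun u hu => h.nc u (e u hu), h.nd, fun u hu => h.rc u (e u hu), h.rd,
    fun u hu => h.cd u (e u hu), h.e1, h.e13, h.e11, h.e2, h.e21, h.e23, h.oo⟩

theorem Gen.sw2 {x c1 c2 c3 y d1 d2 d3 o1 o2 : V} {R : Finset V}
    (h : Gen G x c1 c2 c3 y d1 d2 d3 o1 o2 R) : Gen G x c1 c2 c3 y d3 d2 d1 o1 o2 R :=
  have e : ∀ u ∈ ({d3, d2, d1} : Finset V), u ∈ ({d1, d2, d3} : Finset V) := by simp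
  ⟨h.two.rev2, h.ps, h.nc, fun u hu => h.nd u (e u hu), h.rc, fun u hu => h.rd u (e u hu),
    fun u hu v hv => h.cd u hu v (e v hv), h.e1, h.e11, h.e13, h.e2, h.e23, h.e21, h.oo⟩

/-- Two squares with opposite corners joined through `p` and `t`. -/
structure CB (G : SimpleGraph V) (x c1 c2 c3 y d1 d2 d3 p t : V) : Prop where
  two : Two G x c1 c2 c3 y d1 d2 d3
  px : G.Adj p x
  py : G.Adj p y
  tc : G.Adj t c2
  td : G.Adj t d2
  np : p ∉ ({x, c1, c2, c3, y, d1, d2, d3} : Finset V)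
  nt : t ∉ ({x, c1, c2, c3, y, d1, d2, d3} : Finset V)

theorem CB.rev1 {x c1 c2 c3 y d1 d2 d3 p t : V} (h : CB G x c1 c2 c3 y d1 d2 d3 p t) :
    CB G x c3 c2 c1 y d1 d2 d3 p t :=
  ⟨h.two.rev1, h.px, h.py, h.tc, h.td, fun e => h.np (by simp at e ⊢; tauto),
    fun e => h.nt (by simp at e ⊢; tauto)⟩

theorem CB.rev2 {x c1 c2 c3 y d1 d2 d3 p t : V} (h : CB G x c1 c2 c3 y d1 d2 d3 p t) :
    CB G x c1 c2 c3 y d3 d2 d1 p t :=
  ⟨h.two.rev2, h.px, h.py, h.tc, h.td, fun e => h.np (by simp at e ⊢; tauto),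
    fun e => h.nt (by simp at e ⊢; tauto)⟩

/-- `o` is the third neighbour of `c`, beside `u` and `v`. -/
def Th (G : SimpleGraph V) (c u v o : V) : Prop := G.Adj c o ∧ o ≠ u ∧ o ≠ v

def NA (G : SimpleGraph V) : Prop := ∀ x c1 c2 c3 y d1 d2 d3, Two G x c1 c2 c3 y d1 d2 d3 →
  G.Adj x y → G.Adj c2 d2 → False

def NB (G : SimpleGraph V) : Prop := ∀ x c1 c2 c3 y d1 d2 d3 p t,
  ¬ CB G x c1 c2 c3 y d1 d2 d3 p t

end

/-! ### The steps: packings -/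

def TwoS : Prop := ∀ (V : Type) [Fintype V] (H : SimpleGraph V) (T Q : Finset V) (K : Cov V),
  IsCov H T K → Q ⊆ T → Fo H Q → ∀ r : V → Fin 3, ∃ f g : V → Fin 3,
    (∀ u ∈ Q, ∀ v ∈ Q, ¬ K u (f u) v (f v)) ∧ (∀ u ∈ Q, ∀ v ∈ Q, ¬ K u (g u) v (g v)) ∧
      ∀ v ∈ Q, f v ≠ r v ∧ g v ≠ r v ∧ f v ≠ g v

def ExtS : Prop := ∀ R : Fin 3 → Fin 3 → Prop, (∀ i j j', R i j → R i j' → j = j') →
  (∀ i i' j, R i j → R i' j → i = i') → ∃ β : Equiv.Perm (Fin 3), ∀ i j, R i j → j = β i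

def OneS : Prop := ∀ (V : Type) [Fintype V] (H : SimpleGraph V) (T S : Finset V) (K : Cov V)
  (I : Type) [Fintype I] (φ : I → V → Fin 3) (τ : I → Fin 3) (v : V),
  IsCov H T K → S ⊆ T → v ∈ T → PackF S K I φ τ →
  (∀ o ∈ S, ∀ o' ∈ S, H.Adj v o → H.Adj v o' → o = o') →
  ∃ ρ : I → Fin 3, Unif ρ ∧ ∀ i, ∀ o ∈ S, ∀ c, K o (φ i o) v c → c = ρ i

def ThreadS : Prop := ∀ (V : Type) [Fintype V] (H : SimpleGraph V) (T S Q : Finset V) (K : Cov V)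
  (I : Type) [Fintype I] (φ : I → V → Fin 3) (τ : I → Fin 3),
  IsCov H T K → S ⊆ T → Q ⊆ T → Disjoint S Q → Fo H Q → PackF S K I φ τ →
  (∀ v ∈ Q, ∃ ρ : I → Fin 3, Unif ρ ∧ ∀ i, ∀ o ∈ S, ∀ c, K o (φ i o) v c → c = ρ i) →
  Pack (S ∪ Q) K

def LevS : Prop := ∀ (V : Type) [Fintype V] (G : SimpleGraph V) (W A : Finset V), A ⊆ W →
  ∃ (Y : Finset V) (lev : V → ℕ), Y ⊆ W ∧ Clo G W Y ∧ Lev G A Y lev

def LpS : Prop := ∀ (V : Type) [Fintype V] (G : SimpleGraph V) (A Y : Finset V) (lev : V → ℕ),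
  Lev G A Y lev → ∀ v ∈ Y, ∃ R a, LP G A Y lev R v a

def SpS : Prop := ∀ (V : Type) [Fintype V] (G : SimpleGraph V) (W A B : Finset V), A ⊆ W →
  B ⊆ W → (∀ Y, A ⊆ Y → Y ⊆ W → Clo G W Y → ∃ b ∈ B, b ∈ Y) → ∃ R a b, Sp G W A B R a b

def ParS : Prop := ∀ (V : Type) [Fintype V] (H : SimpleGraph V) (S Z : Finset V) (col : V → Bool)
  (a : V), Bip H S col → Z ⊆ S → Clo H S Z → a ∈ Z → dg H S a = 2 →
  (∀ z ∈ Z, z ≠ a → dg H S z = 3) → False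

def StepS : Prop := ∀ (V : Type) [Fintype V] (H : SimpleGraph V) (S : Finset V) (col : V → Bool),
  Bip H S col → (∀ v ∈ S, dg H S v ≤ 3) → NC H S → S.Nonempty →
  ∃ Q, Q ⊆ S ∧ Q.Nonempty ∧ Fo H Q ∧
    ∀ v ∈ Q, ∀ o ∈ S \ Q, ∀ o' ∈ S \ Q, H.Adj v o → H.Adj v o' → o = o'

def NS : Prop := ∀ (V : Type) [Fintype V] (H : SimpleGraph V) (S : Finset V) (col : V → Bool)
  (K : Cov V), IsCov H S K → Bip H S col → (∀ v ∈ S, dg H S v ≤ 3) → NC H S → Pack S K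

def MgCovS : Prop := ∀ (V : Type) [Fintype V] (H : SimpleGraph V) (S : Finset V) (K : Cov V)
  (a a' : V) (θ : Equiv.Perm (Fin 3)), IsCov H S K → a ∈ S → a' ∈ S → a ≠ a' → ¬ H.Adj a a' →
  (∀ t ∈ S, H.Adj a t → ¬ H.Adj a' t) → IsCov (mg H a a') (S.erase a') (mk K a a' θ)

def MgPackS : Prop := ∀ (V : Type) [Fintype V] (H : SimpleGraph V) (S : Finset V) (K : Cov V)
  (a a' : V) (θ : Equiv.Perm (Fin 3)) (I : Type) [Fintype I] (φ : I → V → Fin 3) (τ : I → Fin 3),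
  IsCov H S K → a ∈ S → a ≠ a' → PackF (S.erase a') (mk K a a' θ) I φ τ →
  PackF S K I (fun i => Function.update (φ i) a' (θ (φ i a))) τ

def MgDegS : Prop := ∀ (V : Type) [Fintype V] (H : SimpleGraph V) (S : Finset V) (a a' : V),
  a' ∈ S → (∀ x, x ≠ a → dg (mg H a a') (S.erase a') x ≤ dg H S x) ∧
    dg (mg H a a') (S.erase a') a ≤ dg H S a + dg H S a' ∧
    ∀ col : V → Bool, Bip H S col → col a = col a' → Bip (mg H a a') (S.erase a') col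

/-- Degrees outside `Q` in a cubic graph. -/
def OutS : Prop := ∀ (V : Type) [Fintype V] (G : SimpleGraph V) (col : V → Bool) (Q : Finset V)
  (z : V), Gr G col → dg G Qᶜ z ≤ 3 ∧ (∀ v ∈ Q, G.Adj z v → dg G Qᶜ z ≤ 2) ∧
    (∀ v ∈ Q, ∀ w ∈ Q, v ≠ w → G.Adj z v → G.Adj z w → dg G Qᶜ z ≤ 1) ∧
    (1 ≤ dg G Qᶜ z → ∃ x, x ∉ Q ∧ G.Adj z x)

def FoldNCS : Prop := ∀ (V : Type) [Fintype V] (G : SimpleGraph V) (col : V → Bool)
  (Q : Finset V) (v1 v2 a a' s s' : V), Gr G col → GC G Q v1 v2 a a' s s' →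
  NC (mg (mg G a a') s s') ((Qᶜ.erase a').erase s')

def FoldAS : Prop := ∀ (V : Type) [Fintype V] (G : SimpleGraph V) (col : V → Bool)
  (Q : Finset V) (v1 v2 a a' s s' : V) (K : Cov V) (θ η : Equiv.Perm (Fin 3)), Gr G col →
  GC G Q v1 v2 a a' s s' → IsCov G univ K →
  IsCov (mg G a a') (Qᶜ.erase a') (mk K a a' θ) ∧
    Pack ((Qᶜ.erase a').erase s') (mk (mk K a a' θ) s s' η)

def FoldS : Prop := ∀ (V : Type) [Fintype V] (G : SimpleGraph V) (col : V → Bool) (K : Cov V),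
  Gr G col → HasGC G → IsCov G univ K → Pack univ K

def ListS : Prop := ∀ (V : Type) [Fintype V] (G : SimpleGraph V),
  (∀ K : Cov V, IsCov G univ K → Pack univ K) → ∀ L : V → Finset ℕ, (∀ v, (L v).card = 3) →
  ∃ N : ℕ, 0 < N ∧ ∃ c : Fin (3 * N) → V → ℕ, (∀ k v, c k v ∈ L v) ∧
    (∀ k u v, G.Adj u v → c k u ≠ c k v) ∧
    ∀ v, ∀ x ∈ L v, (univ.filter fun k => c k v = x).card = N

/-! ### The steps: a domino -/

def DomMkS : Prop := ∀ (V : Type) [Fintype V] (G : SimpleGraph V) (col : V → Bool), Gr G col →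
  ¬ NoDom G → ∃ p q w s r t P S W T, Dom G p q w s r t P S W T

def L1S : Prop := ∀ (V : Type) [Fintype V] (G : SimpleGraph V) (col : V → Bool)
  (p q w s r t P S W T c0 : V), Gr G col → Dom G p q w s r t P S W T → G.Adj P S →
  Th G S s P c0 → ¬ G.Adj c0 T → HasGC G

def C1S : Prop := ∀ (V : Type) [Fintype V] (G : SimpleGraph V) (col : V → Bool)
  (p q w s r t P S W T : V), Gr G col → Dom G p q w s r t P S W T → G.Adj P S → G.Adj W T →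
  HasGC G

def C2S : Prop := ∀ (V : Type) [Fintype V] (G : SimpleGraph V) (col : V → Bool)
  (p q w s r t P S W T : V) (R : Finset V), Gr G col → Dom G p q w s r t P S W T →
  ¬ G.Adj W T → PS G R P S → (∀ z ∈ R, z ∉ ({p, q, w, s, r, t} : Finset V)) → W ∉ R →
  (∀ x ∈ R, ∀ y ∈ R, G.Adj P x → G.Adj P y → x = y) → HasGC G

def C3S : Prop := ∀ (V : Type) [Fintype V] (G : SimpleGraph V) (col : V → Bool)
  (p q w s r t P S W T : V) (R : Finset V), Gr G col → Dom G p q w s r t P S W T →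
  ¬ G.Adj S W → PS G R P T → (∀ z ∈ R, z ∉ ({p, q, w, s, r, t} : Finset V)) → W ∉ R → S ∉ R →
  HasGC G

def D1S : Prop := ∀ (V : Type) [Fintype V] (G : SimpleGraph V) (col : V → Bool)
  (p q w s r t P S W T S' T' : V), Gr G col → Dom G p q w s r t P S W T → G.Adj P T →
  G.Adj S W → ¬ G.Adj P S → ¬ G.Adj W T → Th G S s W S' → Th G T t P T' → S' ≠ T' → HasGC G

def C4S : Prop := ∀ (V : Type) [Fintype V] (G : SimpleGraph V) (col : V → Bool)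
  (p q w s r t P S W T : V), Gr G col → Dom G p q w s r t P S W T → G.Adj P T →
  G.Adj S W → ¬ G.Adj P S → ¬ G.Adj W T → HasGC G

def DspS : Prop := ∀ (V : Type) [Fintype V] (G : SimpleGraph V) (col : V → Bool)
  (p q w s r t P S W T : V), Gr G col → Dom G p q w s r t P S W T →
  ∃ R a b, Sp G ({p, q, w, s, r, t} : Finset V)ᶜ {P, W} {S, T} R a b

def C5S : Prop := ∀ (V : Type) [Fintype V] (G : SimpleGraph V) (col : V → Bool)
  (p q w s r t P S W T : V), Gr G col → Dom G p q w s r t P S W T → HasGC G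

/-! ### The steps: no domino -/

def C6S : Prop := ∀ (V : Type) [Fintype V] (G : SimpleGraph V) (col : V → Bool)
  (x c1 c2 c3 y d1 d2 d3 : V), Gr G col → NoDom G → Sq G x c1 c2 c3 → Sq G y d1 d2 d3 →
  ({x, c1, c2, c3} : Finset V) ≠ {y, d1, d2, d3} → Two G x c1 c2 c3 y d1 d2 d3

def DbS : Prop := ∀ (V : Type) [Fintype V] (G : SimpleGraph V) (col : V → Bool)
  (X U V1 U' Y S V2 S' o1 o2 : V) (R : Finset V), Gr G col → NoDom G →
  Db G X U V1 U' Y S V2 S' o1 o2 R → (∀ Z, ¬ Tight G (DQ R U' V1 S' V2) V1 V2 U o1 S o2 Z) →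
  HasGC G

def C8gS : Prop := ∀ (V : Type) [Fintype V] (G : SimpleGraph V) (col : V → Bool)
  (x c1 c2 c3 y d1 d2 d3 a1 a3 b1 b3 : V) (R : Finset V), Gr G col → NoDom G →
  Two G x c1 c2 c3 y d1 d2 d3 → G.Adj x y → G.Adj c2 d2 → Th G c1 x c2 a1 → Th G c3 x c2 a3 →
  Th G d1 y d2 b1 → Th G d3 y d2 b3 → PS G R a1 b1 →
  (∀ z ∈ R, z ∉ ({x, c1, c2, c3, y, d1, d2, d3} : Finset V)) → a3 ∉ R → b3 ∉ R → HasGC G

def C8S : Prop := ∀ (V : Type) [Fintype V] (G : SimpleGraph V) (col : V → Bool), Gr G col →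
  NoDom G → ¬ NA G → HasGC G

def C9S : Prop := ∀ (V : Type) [Fintype V] (G : SimpleGraph V) (col : V → Bool)
  (x c1 c2 c3 y d1 d2 d3 p t e : V), Gr G col → NoDom G → CB G x c1 c2 c3 y d1 d2 d3 p t →
  G.Adj e c1 → G.Adj e d1 → HasGC G

def C10gS : Prop := ∀ (V : Type) [Fintype V] (G : SimpleGraph V) (col : V → Bool)
  (x c1 c2 c3 y d1 d2 d3 p t a1 a3 b1 b3 : V) (R : Finset V), Gr G col → NoDom G →
  CB G x c1 c2 c3 y d1 d2 d3 p t → Th G c1 x c2 a1 → Th G c3 x c2 a3 →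
  Th G d1 y d2 b1 → Th G d3 y d2 b3 → a3 ≠ b3 → PS G R a1 b1 →
  (∀ z ∈ R, z ∉ ({x, c1, c2, c3, y, d1, d2, d3, p, t} : Finset V)) → a3 ∉ R → b3 ∉ R → HasGC G

def C10rS : Prop := ∀ (V : Type) [Fintype V] (G : SimpleGraph V) (col : V → Bool)
  (x c1 c2 c3 y d1 d2 d3 p t a1 a3 b1 b3 : V), Gr G col →
  CB G x c1 c2 c3 y d1 d2 d3 p t → Th G c1 x c2 a1 → Th G c3 x c2 a3 →
  Th G d1 y d2 b1 → Th G d3 y d2 b3 → a1 ≠ a3 ∧ b1 ≠ b3 ∧
  ∃ R a b, Sp G ({x, c1, c2, c3, y, d1, d2, d3, p, t} : Finset V)ᶜ {a1, a3} {b1, b3} R a b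

def C10S : Prop := ∀ (V : Type) [Fintype V] (G : SimpleGraph V) (col : V → Bool), Gr G col →
  NoDom G → ¬ NB G → HasGC G

def GenAS : Prop := ∀ (V : Type) [Fintype V] (G : SimpleGraph V) (col : V → Bool)
  (x c1 c2 c3 y d1 d2 d3 o1 o2 : V) (R : Finset V), Gr G col →
  Gen G x c1 c2 c3 y d1 d2 d3 o1 o2 R → ¬ (G.Adj c1 o2 ∧ G.Adj o1 d1) →
  Db G x c1 c2 c3 y d1 d2 d3 o1 o2 R

def GenBS : Prop := ∀ (V : Type) [Fintype V] (G : SimpleGraph V) (col : V → Bool)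
  (x c1 c2 c3 y d1 d2 d3 o1 o2 : V) (R Y Z : Finset V), Gr G col →
  Gen G x c1 c2 c3 y d1 d2 d3 o1 o2 R → Tight G (DQ R c3 c2 d3 d2) c2 d2 c1 o1 d1 o2 Y →
  Tight G (DQ R c1 c2 d3 d2) c2 d2 c3 o1 d1 o2 Z → False

def C11S : Prop := ∀ (V : Type) [Fintype V] (G : SimpleGraph V) (col : V → Bool)
  (x c1 c2 c3 y d1 d2 d3 o1 o2 : V) (R : Finset V), Gr G col → NoDom G →
  Gen G x c1 c2 c3 y d1 d2 d3 o1 o2 R → HasGC G

def GenMkS : Prop := ∀ (V : Type) [Fintype V] (G : SimpleGraph V) (col : V → Bool)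
  (x c1 c2 c3 y d1 d2 d3 : V) (R : Finset V), Gr G col → NoDom G → NA G → NB G →
  Two G x c1 c2 c3 y d1 d2 d3 → Sp G univ {x, c1, c2, c3} {y, d1, d2, d3} R x y →
  ∃ o1 o2, Gen G x c1 c2 c3 y d1 d2 d3 o1 o2 R

def C12S : Prop := ∀ (V : Type) [Fintype V] (G : SimpleGraph V) (col : V → Bool)
  (x c1 c2 c3 y d1 d2 d3 : V), Gr G col → NoDom G → Two G x c1 c2 c3 y d1 d2 d3 → HasGC G

end FP
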